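import Mathlib

set_option autoImplicit false

namespace Pool.Agent.EGK

open MvPolynomial Finset

variable {s : ℕ}

noncomputable def sub (p : Fin s → ℝ) (θ : Matrix (Fin s) (Fin s) ℝ) :
    MvPolynomial (Fin s) ℝ →ₐ[ℝ] MvPolynomial (Fin s) ℝ :=
  aeval (fun k => C (p k) + ∑ j, C (θ j k) * X j)

lemma sub_X (p : Fin s → ℝ) (θ : Matrix (Fin s) (Fin s) ℝ) (k : Fin s) :
    sub p θ (X k) = C (p k) + ∑ j, C (θ j k) * X j := by
  simp [sub]

lemma sub_C (p : Fin s → ℝ) (θ : Matrix (Fin s) (Fin s) ℝ) (c : ℝ) :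
    sub p θ (C c) = C c := by
  simp [sub]

lemma sub_sub (p q : Fin s → ℝ) (θ η : Matrix (Fin s) (Fin s) ℝ) (f : MvPolynomial (Fin s) ℝ) :
    sub q η (sub p θ f) = sub (p + Matrix.vecMul q θ) (η * θ) f := by
  have : (sub q η).comp (sub p θ) = sub (p + Matrix.vecMul q θ) (η * θ) := by
    apply MvPolynomial.algHom_ext
    intro k
    simp only [AlgHom.comp_apply, sub_X, map_add, map_sum, map_mul, sub_C, Pi.add_apply,
      Matrix.vecMul, dotProduct, Matrix.mul_apply, mul_add, Finset.sum_add_distrib,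
      Finset.mul_sum, Finset.sum_mul]
    rw [add_assoc]
    congr 2
    · exact Finset.sum_congr rfl fun j _ => by ring
    · rw [Finset.sum_comm]
      exact Finset.sum_congr rfl fun j _ => Finset.sum_congr rfl fun l _ => by ring
  exact DFunLike.congr_fun this f

lemma sub_zero_one (f : MvPolynomial (Fin s) ℝ) : sub 0 1 f = f := by
  have : sub (0 : Fin s → ℝ) 1 = AlgHom.id ℝ _ := by
    apply MvPolynomial.algHom_ext
    intro k
    simp [sub_X, Matrix.one_apply, apply_ite C]
  rw [this]; rfl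

lemma lin_mem (θ : Matrix (Fin s) (Fin s) ℝ) (ν : ℕ) (g : MvPolynomial (Fin s) ℝ)
    (hg : g ∈ idealOfVars (Fin s) ℝ ^ ν) : sub 0 θ g ∈ idealOfVars (Fin s) ℝ ^ ν := by
  have h1 : Ideal.map (sub 0 θ) (idealOfVars (Fin s) ℝ) ≤ idealOfVars (Fin s) ℝ := by
    rw [Ideal.map_span, Ideal.span_le]
    rintro _ ⟨_, ⟨k, rfl⟩, rfl⟩
    simp only [sub_X, Pi.zero_apply, map_zero, zero_add, SetLike.mem_coe]
    exact Ideal.sum_mem _ fun j _ => Ideal.mul_mem_left _ _ (Ideal.subset_span ⟨j, rfl⟩)
  have h2 : Ideal.map (sub 0 θ) (idealOfVars (Fin s) ℝ ^ ν) ≤ idealOfVars (Fin s) ℝ ^ ν := by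
    rw [Ideal.map_pow]
    exact Ideal.pow_right_mono h1 ν
  exact h2 (Ideal.mem_map_of_mem _ hg)

def Van (f : MvPolynomial (Fin s) ℝ) (p : Fin s → ℝ) (ν : ℕ) : Prop :=
  sub p 1 f ∈ idealOfVars (Fin s) ℝ ^ ν

lemma van_sub {f : MvPolynomial (Fin s) ℝ} {p : Fin s → ℝ} {ν : ℕ} (h : Van f p ν)
    (θ : Matrix (Fin s) (Fin s) ℝ) : sub p θ f ∈ idealOfVars (Fin s) ℝ ^ ν := by
  have := lin_mem θ ν _ h
  rw [sub_sub] at this
  simpa using this

lemma van_of_sub {f : MvPolynomial (Fin s) ℝ} {p : Fin s → ℝ} {ν : ℕ}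
    {θ η : Matrix (Fin s) (Fin s) ℝ} (hη : η * θ = 1)
    (h : sub p θ f ∈ idealOfVars (Fin s) ℝ ^ ν) : Van f p ν := by
  have := lin_mem η ν _ h
  rw [sub_sub, hη] at this
  simpa [Van] using this

lemma exists_order {f : MvPolynomial (Fin s) ℝ} (hf : f ≠ 0) (p : Fin s → ℝ) :
    ∃ ν, Van f p ν ∧ ¬ Van f p (ν + 1) := by
  classical
  have hne : sub p 1 f ≠ 0 := by
    intro h
    have := sub_sub p (-p) 1 1 f
    rw [h] at this
    simp [sub_zero_one] at this
    exact hf this.symm
  obtain ⟨γ, hγ⟩ := MvPolynomial.ne_zero_iff.mp hne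
  have hex : ∃ ν, ¬ Van f p ν := by
    refine ⟨Finsupp.degree γ + 1, fun h => hγ ?_⟩
    exact (mem_pow_idealOfVars_iff' _ _).mp h γ (Nat.lt_succ_self _)
  have h0 : Nat.find hex ≠ 0 := by
    intro h
    have := Nat.find_spec hex
    rw [h] at this
    exact this (by simp [Van])
  obtain ⟨ν, hν⟩ := Nat.exists_eq_succ_of_ne_zero h0
  refine ⟨ν, ?_, ?_⟩
  · have := Nat.find_min hex (m := ν) (by omega)
    simpa using this
  · have := Nat.find_spec hex
    rwa [hν] at this

lemma totalDegree_sub_le (p : Fin s → ℝ) (θ : Matrix (Fin s) (Fin s) ℝ)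
    (f : MvPolynomial (Fin s) ℝ) : (sub p θ f).totalDegree ≤ f.totalDegree := by
  classical
  have h1 : ∀ k, (C (p k) + ∑ j, C (θ j k) * X j : MvPolynomial (Fin s) ℝ).totalDegree ≤ 1 := by
    intro k
    refine (totalDegree_add _ _).trans (max_le (by simp) ?_)
    refine (totalDegree_finsetSum _ _).trans (Finset.sup_le fun j _ => ?_)
    refine (totalDegree_mul _ _).trans ?_
    simp
  conv_lhs => rw [f.as_sum]
  rw [map_sum]
  refine (totalDegree_finsetSum _ _).trans (Finset.sup_le fun γ hγ => ?_)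
  rw [sub, aeval_monomial]
  refine (totalDegree_mul _ _).trans ?_
  have : (algebraMap ℝ (MvPolynomial (Fin s) ℝ) (coeff γ f)).totalDegree = 0 := by
    simp [algebraMap_eq]
  rw [this, zero_add, Finsupp.prod]
  refine (totalDegree_finsetProd _ _).trans ?_
  refine le_trans ?_ (le_totalDegree hγ)
  rw [Finsupp.sum]
  refine Finset.sum_le_sum fun k _ => ?_
  refine (totalDegree_pow _ _).trans ?_
  have := h1 k
  nlinarith

noncomputable def res (i : Fin s) :
    MvPolynomial (Fin s) ℝ →ₐ[ℝ] MvPolynomial (Fin s) (Polynomial ℝ) :=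
  aeval (fun j => if j = i then C Polynomial.X else X j)

lemma res_monomial (i : Fin s) (δ : Fin s →₀ ℕ) (c : ℝ) :
    res i (monomial δ c) = monomial (δ.erase i) (Polynomial.C c * Polynomial.X ^ δ i) := by
  classical
  rw [res, aeval_monomial, monomial_eq]
  conv_lhs => rw [← Finsupp.erase_add_single i δ]
  rw [Finsupp.prod_add_index' (by simp) (fun _ _ _ => pow_add _ _ _)]
  rw [Finsupp.prod_single_index (by simp)]
  have : ((δ.erase i).prod fun j k =>
      (if j = i then C Polynomial.X else X j : MvPolynomial (Fin s) (Polynomial ℝ)) ^ k) =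
      (δ.erase i).prod fun j k => X j ^ k := by
    refine Finsupp.prod_congr fun j hj => ?_
    have : j ≠ i := by
      intro h; subst h; simp at hj
    simp [this]
  rw [this]
  simp only [if_true, map_mul, map_pow]
  have : algebraMap ℝ (MvPolynomial (Fin s) (Polynomial ℝ)) c = C (Polynomial.C c) := rfl
  rw [this]; ring

lemma coeff_res (i : Fin s) (γ : Fin s →₀ ℕ) (hγ : γ i = 0) (m : ℕ) (g : MvPolynomial (Fin s) ℝ) :
    (coeff γ (res i g)).coeff m = coeff (γ + Finsupp.single i m) g := by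
  classical
  induction g using MvPolynomial.induction_on' with
  | monomial δ c =>
    rw [res_monomial, coeff_monomial, coeff_monomial]
    by_cases h : δ = γ + Finsupp.single i m
    · have h1 : δ.erase i = γ := by
        ext j; by_cases hj : j = i
        · subst hj; simp [hγ]
        · simp [h, Finsupp.erase_ne hj, hj]
      have h2 : δ i = m := by simp [h, hγ]
      rw [if_pos h1, if_pos h, h2]; simp
    · rw [if_neg h]
      split_ifs with h1
      · have h2 : δ i ≠ m := by
          intro h2; apply h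
          rw [← h1, ← h2, Finsupp.erase_add_single]
        simp [Polynomial.coeff_X_pow, Ne.symm h2]
      · simp
  | add p q hp hq => simp [hp, hq]

lemma res_shift (i : Fin s) (τ : ℝ) (g : MvPolynomial (Fin s) ℝ) (γ : Fin s →₀ ℕ) :
    coeff γ (res i (sub (Pi.single i τ) 1 g)) =
      (coeff γ (res i g)).comp (Polynomial.X + Polynomial.C τ) := by
  classical
  have : (res i).comp (sub (Pi.single i τ) 1) =
      (mapAlgHom (Polynomial.aeval (Polynomial.X + Polynomial.C τ) :
        Polynomial ℝ →ₐ[ℝ] Polynomial ℝ)).comp (res i) := by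
    apply MvPolynomial.algHom_ext
    intro k
    by_cases hk : k = i
    · subst hk
      simp [sub_X, res, Matrix.one_apply, apply_ite C, add_comm]
    · simp [sub_X, res, Matrix.one_apply, apply_ite C, hk]
  have h := DFunLike.congr_fun this g
  simp only [AlgHom.comp_apply] at h
  rw [h, mapAlgHom_apply, coeff_map]
  simp [Polynomial.comp_eq_aeval]

lemma sum_rootMultiplicity_le {J : Type*} (U : Finset J) (t : J → ℝ) (ht : Set.InjOn t U)
    (h : Polynomial ℝ) : ∑ q ∈ U, h.rootMultiplicity (t q) ≤ h.natDegree := by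
  classical
  rw [← Finset.sum_image (s := U) (g := t) (f := fun a => h.rootMultiplicity a) ht]
  refine le_trans ?_ (Polynomial.card_roots' h)
  simp_rw [← Polynomial.count_roots]
  rw [← Multiset.sum_count_eq_card (s := U.image t ∪ h.roots.toFinset) (by intro a ha; simp only [Finset.mem_union, Multiset.mem_toFinset]; exact Or.inr ha)]
  exact Finset.sum_le_sum_of_subset Finset.subset_union_left

theorem key {J L : Type*} (x : J → Fin s → ℝ) (hx : Function.Injective x)
    (θ : L → Fin s → ℝ) (inc : J → L → Prop) [∀ p G, Decidable (inc p G)]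
    (hcol : ∀ p q G, inc p G → inc q G → ∃ τ : ℝ, x q = x p + τ • θ G)
    (U : Finset J) (hU : U.Nonempty) (α : J → ℝ) (τ : L → ℝ) (T : J → Fin s → L)
    (hT : ∀ p ∈ U, (∀ i, inc p (T p i)) ∧ LinearIndependent ℝ (fun i => θ (T p i)))
    (m : ℕ)
    (hsum : ∀ p ∈ U, ∀ i, ((s * m : ℕ) : ℝ) <
      ∑ q ∈ U.filter (fun q => inc q (T p i)), max 0 (τ (T p i) + α q)) :
    (m + 1) ^ s ≤ ∑ p ∈ U, ∏ i, ⌈τ (T p i) + α p⌉₊ := by
  classical
  by_contra hlt
  push Not at hlt
  set b : J → Fin s → ℕ := fun p i => ⌈τ (T p i) + α p⌉₊ with hb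
  let M : J → Matrix (Fin s) (Fin s) ℝ := fun p => Matrix.of fun i => θ (T p i)
  let ex : (Fin s → Fin (m + 1)) → (Fin s →₀ ℕ) := fun a => Finsupp.equivFunOnFinite.symm fun i => a i
  have hex : Function.Injective ex := by
    intro a a' h
    funext i
    have := DFunLike.congr_fun h i
    simpa [ex, Fin.ext_iff] using this
  let poly : ((Fin s → Fin (m + 1)) → ℝ) →ₗ[ℝ] MvPolynomial (Fin s) ℝ :=
    ∑ a, (monomial (ex a)).comp (LinearMap.proj a)
  have hpoly : ∀ c, poly c = ∑ a, monomial (ex a) (c a) := by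
    intro c; simp [poly]
  let Φ : ((Fin s → Fin (m + 1)) → ℝ) →ₗ[ℝ] ((Σ p : U, (i : Fin s) → Fin (b p i)) → ℝ) :=
    LinearMap.pi fun z => (lcoeff ℝ (Finsupp.equivFunOnFinite.symm fun i => (z.2 i : ℕ))).comp
      ((sub (x z.1) (M z.1)).toLinearMap.comp poly)
  have hker : LinearMap.ker Φ ≠ ⊥ := by
    apply LinearMap.ker_ne_bot_of_finrank_lt
    simp only [Module.finrank_fintype_fun_eq_card, Fintype.card_sigma, Fintype.card_pi,
      Fintype.card_fin, Finset.prod_const, Finset.card_univ]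
    rw [Finset.sum_coe_sort U (fun p => ∏ i, b p i)]
    exact hlt
  obtain ⟨c, hc, hc0⟩ := Submodule.exists_mem_ne_zero_of_ne_bot hker
  set f := poly c with hf
  have hf0 : f ≠ 0 := by
    intro h
    apply hc0
    funext a
    have := congrArg (coeff (ex a)) h
    rw [hf, hpoly, coeff_sum] at this
    simp only [coeff_monomial, hex.eq_iff] at this
    simpa using this
  have hdeg : f.totalDegree ≤ s * m := by
    rw [hf, hpoly]
    refine (totalDegree_finsetSum _ _).trans (Finset.sup_le fun a _ => ?_)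
    refine (totalDegree_monomial_le _ _).trans ?_
    rw [Finsupp.sum_fintype _ _ (by simp)]
    calc ∑ i, id (ex a i) ≤ ∑ _i : Fin s, m := Finset.sum_le_sum fun i _ => by
          simp [ex, Nat.lt_succ_iff.mp (a i).2]
      _ = s * m := by simp
  have hvan : ∀ p ∈ U, ∀ γ : Fin s →₀ ℕ, (∀ i, γ i < b p i) → coeff γ (sub (x p) (M p) f) = 0 := by
    intro p hp γ hγ
    have := congrFun (LinearMap.mem_ker.mp hc) ⟨⟨p, hp⟩, fun i => ⟨γ i, hγ i⟩⟩
    simp only [Φ, LinearMap.pi_apply, LinearMap.comp_apply, lcoeff_apply, Pi.zero_apply,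
      AlgHom.toLinearMap_apply] at this
    have h2 : (Finsupp.equivFunOnFinite.symm fun i => γ i) = γ := by ext i; simp
    rwa [h2] at this
  choose ν hν using fun p => exists_order hf0 (x p)
  obtain ⟨p, hp, hmin⟩ := U.exists_min_image (fun p => (ν p : ℝ) - α p) hU
  have hinv : ∃ η, η * M p = 1 := by
    have hli : LinearIndependent ℝ (M p).row := (hT p hp).2
    have hu := (Matrix.linearIndependent_rows_iff_isUnit).mp hli
    obtain ⟨u, hu⟩ := hu
    exact ⟨↑u⁻¹, by rw [← hu]; simp⟩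
  obtain ⟨η, hη⟩ := hinv
  have h1 : ¬ sub (x p) (M p) f ∈ idealOfVars (Fin s) ℝ ^ (ν p + 1) :=
    fun h => (hν p).2 (van_of_sub hη h)
  rw [mem_pow_idealOfVars_iff'] at h1
  push Not at h1
  obtain ⟨γ, hγd, hγ⟩ := h1
  have h2 : ∃ i, b p i ≤ γ i := by
    by_contra h
    push Not at h
    exact hγ (hvan p hp γ h)
  obtain ⟨i, hi⟩ := h2
  have hi' : τ (T p i) + α p ≤ γ i := Nat.ceil_le.mp hi
  set γ' := γ.erase i with hγ'
  have hγ'i : γ' i = 0 := by simp [hγ']
  have hsplit : γ' + Finsupp.single i (γ i) = γ := Finsupp.erase_add_single i γ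
  have hdeg' : Finsupp.degree γ' + γ i = Finsupp.degree γ := by
    conv_rhs => rw [← hsplit]
    simp
  set h := coeff γ' (res i (sub (x p) (M p) f)) with hh
  have hh0 : h ≠ 0 := by
    intro h0
    apply hγ
    rw [← hsplit, ← coeff_res i γ' hγ'i, ← hh, h0]; simp
  have hhd : h.natDegree ≤ s * m := by
    rw [Polynomial.natDegree_le_iff_coeff_eq_zero]
    intro N hN
    rw [hh, coeff_res i γ' hγ'i]
    apply coeff_eq_zero_of_totalDegree_lt
    have := totalDegree_sub_le (x p) (M p) f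
    have h3 : ∑ j ∈ (γ' + Finsupp.single i N).support, (γ' + Finsupp.single i N) j =
        Finsupp.degree (γ' + Finsupp.single i N) := rfl
    rw [h3]
    simp only [map_add, Finsupp.degree_single]
    omega
  set V := U.filter (fun q => inc q (T p i)) with hV
  have hcol' : ∀ q, ∃ t : ℝ, q ∈ V → x q = x p + t • θ (T p i) := by
    intro q
    by_cases hq : q ∈ V
    · obtain ⟨t, ht⟩ := hcol p q (T p i) ((hT p hp).1 i) (Finset.mem_filter.mp hq).2
      exact ⟨t, fun _ => ht⟩
    · exact ⟨0, fun h => absurd h hq⟩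
  choose t ht using hcol'
  have htinj : Set.InjOn t V := by
    intro q hq q' hq' h
    apply hx
    rw [ht q hq, ht q' hq', h]
  have hroot : ∀ q ∈ V, max 0 (τ (T p i) + α q) ≤ (h.rootMultiplicity (t q) : ℝ) := by
    intro q hq
    have hqU := (Finset.mem_filter.mp hq).1
    have e1 : sub (x q) (M p) f = sub (Pi.single i (t q)) 1 (sub (x p) (M p) f) := by
      rw [sub_sub, one_mul, ht q hq]
      congr 2
      funext k
      simp [Matrix.single_vecMul, M]
    have e2 : h.comp (Polynomial.X + Polynomial.C (t q)) = coeff γ' (res i (sub (x q) (M p) f)) := by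
      rw [e1, res_shift]
    have hc0 : h.comp (Polynomial.X + Polynomial.C (t q)) ≠ 0 := by
      rw [Ne, Polynomial.comp_X_add_C_eq_zero_iff]; exact hh0
    have h4 : ν q - Finsupp.degree γ' ≤ h.rootMultiplicity (t q) := by
      rw [Polynomial.rootMultiplicity_eq_natTrailingDegree]
      apply Polynomial.le_natTrailingDegree hc0
      intro k hk
      rw [e2, coeff_res i γ' hγ'i]
      refine (mem_pow_idealOfVars_iff' _ _).mp (van_sub (hν q).1 (M p)) _ ?_
      simp only [map_add, Finsupp.degree_single]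
      omega
    have h5 : ν q ≤ h.rootMultiplicity (t q) + Finsupp.degree γ' := by omega
    have h6 : Finsupp.degree γ' + γ i ≤ ν p := by omega
    have h5' : (ν q : ℝ) ≤ h.rootMultiplicity (t q) + (Finsupp.degree γ' : ℕ) := by exact_mod_cast h5
    have h6' : ((Finsupp.degree γ' : ℕ) : ℝ) + γ i ≤ ν p := by exact_mod_cast h6
    have h7 := hmin q hqU
    refine max_le (Nat.cast_nonneg _) ?_
    linarith
  have h8 := sum_rootMultiplicity_le V t htinj h
  have h9 : ∑ q ∈ V, max 0 (τ (T p i) + α q) ≤ ((s * m : ℕ) : ℝ) := by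
    refine (Finset.sum_le_sum hroot).trans ?_
    exact_mod_cast h8.trans hhd
  exact absurd (hsum p hp i) (not_lt.mpr h9)

end Pool.Agent.EGK
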