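import Pool.Agent.H.MP_617eb0_gt.A

set_option autoImplicit false

namespace Pool.Agent.EGK

open Finset Filter Topology

variable {s : ℕ}

theorem keyc (hs : 1 ≤ s) {J L : Type*} (x : J → Fin s → ℝ) (hx : Function.Injective x)
    (θ : L → Fin s → ℝ) (inc : J → L → Prop) [∀ p G, Decidable (inc p G)]
    (hcol : ∀ p q G, inc p G → inc q G → ∃ τ : ℝ, x q = x p + τ • θ G)
    (U : Finset J) (hU : U.Nonempty) (α : J → ℝ) (τ : L → ℝ) (T : J → Fin s → L)
    (hT : ∀ p ∈ U, (∀ i, inc p (T p i)) ∧ LinearIndependent ℝ (fun i => θ (T p i)))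
    (hsum : ∀ p ∈ U, ∀ i, 1 ≤
      ∑ q ∈ U.filter (fun q => inc q (T p i)), max 0 (τ (T p i) + α q)) :
    1 ≤ ∑ p ∈ U, ∏ i, ((s : ℝ) * max 0 (τ (T p i) + α p)) := by
  have main : ∀ m : ℕ, (1 : ℝ) ≤
      ∑ p ∈ U, ∏ i, ((s : ℝ) * max 0 (τ (T p i) + α p) + 1 / ((m : ℝ) + 1)) := by
    intro m
    set N : ℝ := (s * m : ℕ) + 1 with hN
    have hN0 : 0 < N := by positivity
    have hs' : (1 : ℝ) ≤ s := by exact_mod_cast hs
    have hNle : N ≤ s * (m + 1) := by rw [hN]; push_cast; linarith
    have hk := key x hx θ inc hcol U hU (fun p => N * α p) (fun G => N * τ G) T hT m (by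
      intro p hp i
      have h1 := hsum p hp i
      have h2 : ∑ q ∈ U.filter (fun q => inc q (T p i)), max 0 (N * τ (T p i) + N * α q) =
          N * ∑ q ∈ U.filter (fun q => inc q (T p i)), max 0 (τ (T p i) + α q) := by
        rw [Finset.mul_sum]
        refine Finset.sum_congr rfl fun q _ => ?_
        rw [mul_max_of_nonneg _ _ hN0.le]; simp [mul_add]
      rw [h2]
      have : N ≤ N * ∑ q ∈ U.filter (fun q => inc q (T p i)), max 0 (τ (T p i) + α q) := by
        nlinarith
      linarith)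
    have hk' : ((m : ℝ) + 1) ^ s ≤ ∑ p ∈ U, ∏ i, ((⌈N * τ (T p i) + N * α p⌉₊ : ℕ) : ℝ) := by
      exact_mod_cast hk
    have hm : (0 : ℝ) < (m : ℝ) + 1 := by positivity
    have h3 : ∀ p ∈ U, ∏ i, ((⌈N * τ (T p i) + N * α p⌉₊ : ℕ) : ℝ) ≤
        ((m : ℝ) + 1) ^ s * ∏ i, ((s : ℝ) * max 0 (τ (T p i) + α p) + 1 / ((m : ℝ) + 1)) := by
      intro p _
      have : ((m : ℝ) + 1) ^ s = ∏ _i : Fin s, ((m : ℝ) + 1) := by simp
      rw [this, ← Finset.prod_mul_distrib]
      refine Finset.prod_le_prod (fun i _ => Nat.cast_nonneg _) fun i _ => ?_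
      have h4 : ((⌈N * τ (T p i) + N * α p⌉₊ : ℕ) : ℝ) ≤ N * max 0 (τ (T p i) + α p) + 1 := by
        have h5 : N * τ (T p i) + N * α p ≤ N * max 0 (τ (T p i) + α p) := by
          rw [← mul_add]; exact mul_le_mul_of_nonneg_left (le_max_right _ _) hN0.le
        have h6 : 0 ≤ N * max 0 (τ (T p i) + α p) := mul_nonneg hN0.le (le_max_left _ _)
        calc _ ≤ ((⌈N * max 0 (τ (T p i) + α p)⌉₊ : ℕ) : ℝ) := by
              exact_mod_cast Nat.ceil_mono h5
          _ ≤ _ := (Nat.ceil_lt_add_one h6).le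
      have h7 : N * max 0 (τ (T p i) + α p) ≤ s * (m + 1) * max 0 (τ (T p i) + α p) :=
        mul_le_mul_of_nonneg_right hNle (le_max_left _ _)
      have h8 : ((m : ℝ) + 1) * ((s : ℝ) * max 0 (τ (T p i) + α p) + 1 / ((m : ℝ) + 1)) =
          s * (m + 1) * max 0 (τ (T p i) + α p) + 1 := by field_simp
      linarith
    have h9 := hk'.trans (Finset.sum_le_sum h3)
    rw [← Finset.mul_sum] at h9
    have h10 : (0 : ℝ) < ((m : ℝ) + 1) ^ s := by positivity
    exact (le_mul_iff_one_le_right h10).mp h9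
  have hlim : Tendsto (fun m : ℕ =>
      ∑ p ∈ U, ∏ i, ((s : ℝ) * max 0 (τ (T p i) + α p) + 1 / ((m : ℝ) + 1))) atTop
      (𝓝 (∑ p ∈ U, ∏ i, ((s : ℝ) * max 0 (τ (T p i) + α p) + 0))) := by
    refine tendsto_finset_sum _ fun p _ => tendsto_finset_prod _ fun i _ => ?_
    exact tendsto_const_nhds.add tendsto_one_div_add_atTop_nhds_zero_nat
  simpa using ge_of_tendsto' hlim main

lemma exists_small {g : ℝ → ℝ} (hg : ContinuousAt g 0) {c : ℝ} (h : g 0 < c) :
    ∃ ε : ℝ, 0 < ε ∧ ε ≤ 1 ∧ g ε < c := by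
  have h1 : ∀ᶠ t in 𝓝 (0 : ℝ), g t < c := hg.eventually (gt_mem_nhds h)
  have h2 : ∀ᶠ t in 𝓝 (0 : ℝ), t < 1 := gt_mem_nhds one_pos
  have h3 : ∀ᶠ t in 𝓝[>] (0 : ℝ), 0 < t := self_mem_nhdsWithin
  obtain ⟨ε, h4, h5, h6⟩ := ((h3.and ((h1.and h2).filter_mono nhdsWithin_le_nhds))).exists
  exact ⟨ε, h4, h6.le, h5⟩

theorem balance (hs : 1 ≤ s) {J L : Type*} [Fintype J] [Fintype L]
    (x : J → Fin s → ℝ) (hx : Function.Injective x)
    (θ : L → Fin s → ℝ) (inc : J → L → Prop) [∀ p G, Decidable (inc p G)]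
    (hcol : ∀ p q G, inc p G → inc q G → ∃ τ : ℝ, x q = x p + τ • θ G)
    (W : J → ℝ) (hW0 : ∀ p, 0 ≤ W p) (hW : ∑ p, W p ≤ 1) :
    ∃ β : J → L → ℝ, (∀ p G, 0 ≤ β p G) ∧
      (∀ G, ∑ p ∈ univ.filter (fun p => inc p G), β p G ≤ 1) ∧
      ∀ p (T : Fin s → L), (∀ i, inc p (T i)) → LinearIndependent ℝ (fun i => θ (T i)) →
        W p ≤ 2 * ∏ i, ((s : ℝ) * β p (T i)) := by
  classical
  set n : ℝ := ((Fintype.card J : ℕ) : ℝ) with hn
  have hn0 : 0 ≤ n := by positivity
  let good : J → (Fin s → L) → Prop := fun p T =>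
    (∀ i, inc p (T i)) ∧ LinearIndependent ℝ (fun i => θ (T i))
  let S : Set ((J → ℝ) × (L → ℝ)) :=
    (Set.Icc (fun _ => 0) (fun _ => n + 1) ×ˢ Set.Icc (fun _ => -n - 1) (fun _ => 1)) ∩
    ({z | ∀ G, (∃ p, inc p G) → 1 ≤ ∑ p ∈ univ.filter (fun p => inc p G), max 0 (z.2 G + z.1 p)} ∩
    {z | ∀ p, z.1 p = 0 ∨ ∃ T, good p T ∧ 2 * ∏ i, ((s : ℝ) * max 0 (z.2 (T i) + z.1 p)) ≤ W p})
  have hSc : IsCompact S := by
    refine (isCompact_Icc.prod isCompact_Icc).inter_right (IsClosed.inter ?_ ?_)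
    · simp only [Set.setOf_forall]
      refine isClosed_iInter fun G => isClosed_iInter fun _ => isClosed_le continuous_const ?_
      fun_prop
    · simp only [Set.setOf_forall]
      refine isClosed_iInter fun p => ?_
      simp only [Set.setOf_or, Set.setOf_exists]
      refine IsClosed.union (isClosed_eq (by fun_prop) continuous_const) ?_
      refine isClosed_iUnion_of_finite fun T => ?_
      by_cases hg : good p T
      · simp only [hg, true_and]
        exact isClosed_le (by fun_prop) continuous_const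
      · simp [hg]
  have hSn : S.Nonempty := by
    refine ⟨(fun _ => 0, fun _ => 1), ⟨⟨fun _ => le_rfl, fun _ => by positivity⟩,
      ⟨fun _ => by show -n - 1 ≤ 1; linarith, fun _ => le_rfl⟩⟩, ?_, fun p => Or.inl rfl⟩
    rintro G ⟨p, hp⟩
    have := Finset.single_le_sum (s := univ.filter (fun p => inc p G))
      (f := fun _ => max (0 : ℝ) (1 + 0)) (fun _ _ => le_max_left _ _) (a := p) (by simp [hp])
    simpa using this
  obtain ⟨⟨α, τ⟩, hz, hmax⟩ := hSc.exists_isMaxOn hSn
    (f := fun z => ∑ p, z.1 p - ∑ G, z.2 G) (by fun_prop)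
  obtain ⟨⟨⟨hα0, hα1⟩, ⟨hτ0, hτ1⟩⟩, hsum, halt⟩ := hz
  simp only [Set.mem_setOf_eq] at hsum halt
  have hαn : ∀ p, α p ≤ n := by
    intro p₀
    by_contra hp₀
    push Not at hp₀
    have hpig : ∃ j : ℕ, j ≤ Fintype.card J ∧ ∀ p, ⌈α p⌉₊ ≠ j + 1 := by
      by_contra h
      push Not at h
      have h1 : (Finset.range (Fintype.card J + 1)).image (· + 1) ⊆
          univ.image (fun p => ⌈α p⌉₊) := by
        intro k hk
        obtain ⟨j, hj, rfl⟩ := Finset.mem_image.mp hk
        obtain ⟨p, hp⟩ := h j (Nat.lt_succ_iff.mp (Finset.mem_range.mp hj))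
        exact Finset.mem_image.mpr ⟨p, Finset.mem_univ _, hp⟩
      have h2 := Finset.card_le_card h1
      rw [Finset.card_image_of_injective _ (add_left_injective 1), Finset.card_range] at h2
      have h3 := Finset.card_image_le (s := (univ : Finset J)) (f := fun p => ⌈α p⌉₊)
      rw [Finset.card_univ] at h3
      omega
    obtain ⟨j, hj, hgap⟩ := hpig
    have hj' : (j : ℝ) ≤ n := by rw [hn]; exact_mod_cast hj
    have hgap' : ∀ p, (j : ℝ) < α p → (j : ℝ) + 1 < α p := by
      intro p hp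
      by_contra h
      push Not at h
      apply hgap p
      rw [Nat.ceil_eq_iff (by omega)]
      push_cast
      exact ⟨hp, h⟩
    set U := univ.filter (fun p => (j : ℝ) < α p) with hU
    have hT : ∀ p, ∃ T : Fin s → L, p ∈ U →
        good p T ∧ 2 * ∏ i, ((s : ℝ) * max 0 (τ (T i) + α p)) ≤ W p := by
      intro p
      by_cases hp : p ∈ U
      · have h1 : (j : ℝ) < α p := (Finset.mem_filter.mp hp).2
        rcases halt p with h | ⟨T, hT⟩
        · have : (0 : ℝ) ≤ j := Nat.cast_nonneg _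
          linarith
        · exact ⟨T, fun _ => hT⟩
      · have hp0 : p₀ ∈ U := by simp only [hU, Finset.mem_filter, Finset.mem_univ, true_and]; linarith
        have h1 : (j : ℝ) < α p₀ := (Finset.mem_filter.mp hp0).2
        rcases halt p₀ with h | ⟨T, hT⟩
        · have : (0 : ℝ) ≤ j := Nat.cast_nonneg _
          linarith
        · exact ⟨T, fun h => absurd h hp⟩
    choose T hT using hT
    have hUne : U.Nonempty :=
      ⟨p₀, by simp only [hU, Finset.mem_filter, Finset.mem_univ, true_and]; linarith⟩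
    have hk := keyc hs x hx θ inc hcol U hUne α τ T (fun p hp => (hT p hp).1) (by
      intro p hp i
      have hpi : inc p (T p i) := (hT p hp).1.1 i
      by_cases hq : ∃ q, q ∉ U ∧ inc q (T p i) ∧ 0 < τ (T p i) + α q
      · obtain ⟨q, hq, -, hq2⟩ := hq
        have h1 : α q ≤ j := by simpa [hU] using hq
        have h2 := hgap' p (Finset.mem_filter.mp hp).2
        have h3 := Finset.single_le_sum (s := U.filter (fun q => inc q (T p i)))
          (f := fun q => max (0 : ℝ) (τ (T p i) + α q)) (fun _ _ => le_max_left _ _) (a := p)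
          (Finset.mem_filter.mpr ⟨hp, hpi⟩)
        have h4 := le_max_right (0 : ℝ) (τ (T p i) + α p)
        linarith
      · push Not at hq
        refine (hsum _ ⟨p, hpi⟩).trans (le_of_eq ?_)
        symm
        apply Finset.sum_subset
        · intro q hq; simp only [Finset.mem_filter] at hq ⊢; exact ⟨Finset.mem_univ _, hq.2⟩
        · intro q hq1 hq2
          have h1 : inc q (T p i) := (Finset.mem_filter.mp hq1).2
          have h2 : q ∉ U := fun h => hq2 (Finset.mem_filter.mpr ⟨h, h1⟩)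
          exact max_eq_left (hq q h2 h1))
    have h5 : ∑ p ∈ U, 2 * ∏ i, ((s : ℝ) * max 0 (τ (T p i) + α p)) ≤ ∑ p ∈ U, W p :=
      Finset.sum_le_sum fun p hp => (hT p hp).2
    have h6 : ∑ p ∈ U, W p ≤ ∑ p, W p :=
      Finset.sum_le_sum_of_subset_of_nonneg (Finset.subset_univ _) fun p _ _ => hW0 p
    rw [← Finset.mul_sum] at h5
    linarith
  refine ⟨fun p G => max 0 (τ G + α p), fun _ _ => le_max_left _ _, ?_, ?_⟩
  · intro G
    by_contra hG
    push Not at hG
    have hpos : ∃ p, 0 < τ G + α p := by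
      by_contra h
      push Not at h
      rw [Finset.sum_eq_zero (fun p _ => max_eq_left (h p))] at hG
      linarith
    obtain ⟨p₁, hp₁⟩ := hpos
    obtain ⟨ε, hε0, hε1, hε⟩ := exists_small
      (g := fun t => -∑ p ∈ univ.filter (fun p => inc p G), max 0 (τ G - t + α p)) (c := -1)
      (by fun_prop) (by simpa using hG)
    have hmem : (α, Function.update τ G (τ G - ε)) ∈ S := by
      have hle : ∀ G', Function.update τ G (τ G - ε) G' ≤ τ G' := by
        intro G'
        by_cases h : G' = G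
        · subst h; simp; linarith
        · simp [h]
      refine ⟨⟨⟨hα0, hα1⟩, ⟨fun G' => ?_, fun G' => (hle G').trans (hτ1 G')⟩⟩, ?_, ?_⟩
      · by_cases h : G' = G
        · subst h; have := hαn p₁; simp; linarith
        · simpa [h] using hτ0 G'
      · intro G' hG'
        by_cases h : G' = G
        · subst h; simp only [Function.update_self]; linarith
        · simpa [h] using hsum G' hG'
      · intro p
        rcases halt p with h | ⟨T, hT, hT2⟩
        · exact Or.inl h
        · refine Or.inr ⟨T, hT, le_trans ?_ hT2⟩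
          refine mul_le_mul_of_nonneg_left (Finset.prod_le_prod (fun i _ => by positivity)
            fun i _ => ?_) (by norm_num)
          have := hle (T i)
          exact mul_le_mul_of_nonneg_left (max_le_max le_rfl (by simpa using this))
            (Nat.cast_nonneg _)
    have h1 := hmax hmem
    simp only [Set.mem_setOf_eq] at h1
    rw [Finset.sum_update_of_mem (Finset.mem_univ G),
      ← Finset.add_sum_erase univ τ (Finset.mem_univ G), Finset.sdiff_singleton_eq_erase] at h1
    linarith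
  · intro p T hT1 hT2
    by_contra hlt
    push Not at hlt
    obtain ⟨ε, hε0, hε1, hε⟩ := exists_small
      (g := fun t => 2 * ∏ i, ((s : ℝ) * max 0 (τ (T i) + (α p + t)))) (c := W p)
      (by fun_prop) (by simpa using hlt)
    have hmem : (Function.update α p (α p + ε), τ) ∈ S := by
      have hle : ∀ q, α q ≤ Function.update α p (α p + ε) q := by
        intro q
        by_cases h : q = p
        · subst h; simp; linarith
        · simp [h]
      refine ⟨⟨⟨fun q => (hα0 q).trans (hle q), fun q => ?_⟩, ⟨hτ0, hτ1⟩⟩, ?_, ?_⟩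
      · by_cases h : q = p
        · subst h; have := hαn q; simp; linarith
        · simpa [h] using hα1 q
      · intro G hG
        refine (hsum G hG).trans (Finset.sum_le_sum fun q _ => max_le_max le_rfl ?_)
        have := hle q
        simpa using this
      · intro q
        by_cases h : q = p
        · subst h
          exact Or.inr ⟨T, ⟨hT1, hT2⟩, by simpa using hε.le⟩
        · simpa [h] using halt q
    have h1 := hmax hmem
    simp only [Set.mem_setOf_eq] at h1
    rw [Finset.sum_update_of_mem (Finset.mem_univ p),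
      ← Finset.add_sum_erase univ α (Finset.mem_univ p), Finset.sdiff_singleton_eq_erase] at h1
    linarith

end Pool.Agent.EGK
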