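import Pool.Agent.H.MP_617eb0_gt.B

set_option autoImplicit false

namespace Pool.Agent.EGK

open Finset Module
open scoped RealInnerProductSpace

lemma generic {V : Type*} [AddCommGroup V] [Module ℝ V] [FiniteDimensional ℝ V] {ι : Type*}
    [Finite ι] (s : ℕ) : ∀ U : ι → Submodule ℝ V, (∀ i, finrank ℝ (U i) ≤ s) →
    ∃ π : V →ₗ[ℝ] (Fin s → ℝ), ∀ i, Disjoint (U i) (LinearMap.ker π) := by
  induction s with
  | zero =>
    intro U hU
    refine ⟨0, fun i => ?_⟩
    have : U i = ⊥ := Submodule.finrank_eq_zero.mp (Nat.le_zero.mp (hU i))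
    simp [this]
  | succ s ih =>
    intro U hU
    have hv : ∀ i : {i // U i ≠ ⊥}, ∃ v ∈ U i, v ≠ 0 := fun i =>
      Submodule.exists_mem_ne_zero_of_ne_bot i.2
    choose v hvU hv0 using hv
    obtain ⟨φ, hφ⟩ := Module.exists_dual_forall_apply_ne_zero (K := ℝ) v hv0
    obtain ⟨π, hπ⟩ := ih (fun i => U i ⊓ LinearMap.ker φ) (by
      intro i
      by_cases h : U i = ⊥
      · have : U i ⊓ LinearMap.ker φ = ⊥ := by rw [h]; simp
        show finrank ℝ (U i ⊓ LinearMap.ker φ : Submodule ℝ V) ≤ s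
        rw [this]; simp
      · have h1 : U i ⊓ LinearMap.ker φ < U i := by
          refine lt_of_le_of_ne inf_le_left fun h2 => hφ ⟨i, h⟩ ?_
          have := hvU ⟨i, h⟩
          rw [← h2] at this
          exact this.2
        have := Submodule.finrank_lt_finrank_of_lt h1
        have := hU i
        omega)
    refine ⟨LinearMap.pi (Fin.cons φ fun k => (LinearMap.proj k).comp π), fun i => ?_⟩
    rw [Submodule.disjoint_def]
    intro z hz hz2
    have h0 := congrFun (LinearMap.mem_ker.mp hz2)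
    refine Submodule.disjoint_def.mp (hπ i) z ⟨hz, ?_⟩ ?_
    · simpa using h0 0
    · rw [LinearMap.mem_ker]; funext k; simpa using h0 k.succ

theorem balance' {s : ℕ} (hs : 1 ≤ s) {V : Type*} [AddCommGroup V] [Module ℝ V]
    [FiniteDimensional ℝ V] {J L : Type*} [Fintype J] [Fintype L]
    (x : J → V) (hx : Function.Injective x)
    (θ : L → V) (inc : J → L → Prop) [∀ p G, Decidable (inc p G)]
    (hcol : ∀ p q G, inc p G → inc q G → ∃ τ : ℝ, x q = x p + τ • θ G)
    (W : J → ℝ) (hW0 : ∀ p, 0 ≤ W p) (hW : ∑ p, W p ≤ 1) :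
    ∃ β : J → L → ℝ, (∀ p G, 0 ≤ β p G) ∧
      (∀ G, ∑ p ∈ univ.filter (fun p => inc p G), β p G ≤ 1) ∧
      ∀ p (T : Fin s → L), (∀ i, inc p (T i)) → LinearIndependent ℝ (fun i => θ (T i)) →
        W p ≤ 2 * ∏ i, ((s : ℝ) * β p (T i)) := by
  classical
  let U : (Fin s → L) ⊕ (J × J) → Submodule ℝ V :=
    Sum.elim (fun T => Submodule.span ℝ (Set.range fun i => θ (T i)))
      (fun pq => Submodule.span ℝ {x pq.1 - x pq.2})
  obtain ⟨π, hπ⟩ := generic s U (by
    rintro (T | pq)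
    · have := finrank_range_le_card (R := ℝ) (fun i => θ (T i))
      rw [Fintype.card_fin] at this
      exact this
    · refine le_trans ?_ hs
      have := finrank_span_le_card (R := ℝ) ({x pq.1 - x pq.2} : Set V)
      rw [Set.toFinset_singleton, Finset.card_singleton] at this
      exact this)
  obtain ⟨β, h1, h2, h3⟩ := balance hs (fun p => π (x p)) (by
      intro p q h
      apply hx
      have := Submodule.disjoint_def.mp (hπ (Sum.inr (p, q))) (x p - x q)
        (Submodule.subset_span rfl) (by simp only [LinearMap.mem_ker, map_sub]; exact sub_eq_zero.mpr h)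
      exact sub_eq_zero.mp this)
    (fun G => π (θ G)) inc (by
      intro p q G hp hq
      obtain ⟨τ, hτ⟩ := hcol p q G hp hq
      exact ⟨τ, by simp [hτ]⟩) W hW0 hW
  exact ⟨β, h1, h2, fun p T hT hli => h3 p T hT (hli.map (hπ (Sum.inl T)))⟩

section poly

variable {E : Type*} [NormedAddCommGroup E] [InnerProductSpace ℝ E]

lemma face_eq (S : Finset E) (l : E →L[ℝ] ℝ) (c : ℝ) (hc : ∀ v ∈ S, l v ≤ c) (H : Set E)
    (hH : Convex ℝ H) (hS : ∀ v ∈ S, l v = c → v ∈ H) {z : E}
    (hz : z ∈ convexHull ℝ (S : Set E)) (hzc : l z = c) : z ∈ H := by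
  classical
  rw [Finset.mem_convexHull'] at hz
  obtain ⟨w, hw0, hw1, rfl⟩ := hz
  have h1 : ∑ v ∈ S, w v * (c - l v) = 0 := by
    simp only [mul_sub, Finset.sum_sub_distrib, ← Finset.sum_mul, hw1]
    rw [← hzc]; simp
  rw [Finset.sum_eq_zero_iff_of_nonneg
    (fun v hv => mul_nonneg (hw0 v hv) (sub_nonneg.mpr (hc v hv)))] at h1
  rw [← Finset.sum_filter_of_ne (p := fun v => w v ≠ 0) (by
    intro v _ h h0; exact h (by simp [h0]))]
  refine hH.sum_mem (fun v hv => hw0 v (Finset.mem_filter.mp hv).1) ?_ ?_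
  · rw [Finset.sum_filter_of_ne (by intro v _ h; exact h), hw1]
  · intro v hv
    obtain ⟨hv1, hv2⟩ := Finset.mem_filter.mp hv
    have := (mul_eq_zero.mp (h1 v hv1)).resolve_left hv2
    exact hS v hv1 (by linarith)

lemma le_of_hull (S : Finset E) (l : E →L[ℝ] ℝ) (c : ℝ) (hc : ∀ v ∈ S, l v ≤ c) {z : E}
    (hz : z ∈ convexHull ℝ (S : Set E)) : l z ≤ c :=
  convexHull_min (t := {z | l z ≤ c}) hc (convex_halfSpace_le l.toLinearMap.isLinear c) hz

lemma faces_finite (S : Finset E) :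
    {F : Set E | IsExposed ℝ (convexHull ℝ (S : Set E)) F ∧ F.Nonempty}.Finite := by
  classical
  refine ((S.powerset.finite_toSet).image fun T : Finset E => convexHull ℝ (T : Set E)).subset ?_
  rintro F ⟨hF, z₀, hz₀⟩
  obtain ⟨l, hl⟩ := hF ⟨z₀, hz₀⟩
  have hz₀' := hz₀
  rw [hl] at hz₀'
  refine ⟨S.filter (· ∈ F), by
    simp only [Finset.mem_coe, Finset.mem_powerset]; exact Finset.filter_subset _ _, ?_⟩
  apply Set.Subset.antisymm
  · exact convexHull_min (by intro v hv; simpa using (Finset.mem_filter.mp hv).2)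
      (hF.convex (convex_convexHull ℝ _))
  · intro z hz
    have hz' := hz
    rw [hl] at hz'
    refine face_eq S l (l z₀) (fun v hv => hz₀'.2 v (subset_convexHull ℝ _ hv)) _
      (convex_convexHull ℝ _) (fun v hv hv2 => subset_convexHull ℝ _ ?_) hz'.1
      (le_antisymm (hz₀'.2 z hz'.1) (hz'.2 z₀ hz₀'.1))
    simp only [Finset.coe_filter, Set.mem_setOf_eq]
    refine ⟨hv, ?_⟩
    rw [hl]
    exact ⟨subset_convexHull ℝ _ hv, fun y hy => hv2 ▸ hz₀'.2 y hy⟩

lemma exposed_trans (S : Finset E) {F H : Set E} (hF : IsExposed ℝ (convexHull ℝ (S : Set E)) F)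
    (hH : IsExposed ℝ F H) : IsExposed ℝ (convexHull ℝ (S : Set E)) H := by
  classical
  rintro ⟨z₀, hz₀⟩
  obtain ⟨l, hl⟩ := hF ⟨z₀, hH.subset hz₀⟩
  obtain ⟨φ, hφ⟩ := hH ⟨z₀, hz₀⟩
  have hz1 := hH.subset hz₀
  rw [hl] at hz1
  have hz2 := hz₀
  rw [hφ] at hz2
  have hM : ∃ M : ℝ, ∀ v ∈ S, l v < l z₀ → φ v - φ z₀ < M * (l z₀ - l v) := by
    refine ⟨∑ v ∈ S, |(φ v - φ z₀) / (l z₀ - l v)| + 1, fun v hv h => ?_⟩
    have h1 : 0 < l z₀ - l v := sub_pos.mpr h
    have h2 := Finset.single_le_sum (s := S) (f := fun v => |(φ v - φ z₀) / (l z₀ - l v)|)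
      (fun _ _ => abs_nonneg _) hv
    have h3 := le_abs_self ((φ v - φ z₀) / (l z₀ - l v))
    rw [← div_lt_iff₀ h1]
    linarith
  obtain ⟨M, hM⟩ := hM
  have hFc : Convex ℝ F := hF.convex (convex_convexHull ℝ _)
  have hvF : ∀ v ∈ S, ¬ l v < l z₀ → v ∈ F ∧ l v = l z₀ := by
    intro v hv h
    have h1 : l v = l z₀ := le_antisymm (hz1.2 v (subset_convexHull ℝ _ hv)) (not_lt.mp h)
    refine ⟨?_, h1⟩
    rw [hl]
    exact ⟨subset_convexHull ℝ _ hv, fun y hy => h1 ▸ hz1.2 y hy⟩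
  have hle : ∀ v ∈ S, (M • l + φ) v ≤ (M • l + φ) z₀ := by
    intro v hv
    simp only [ContinuousLinearMap.add_apply, ContinuousLinearMap.smul_apply, smul_eq_mul]
    by_cases h : l v < l z₀
    · have := hM v hv h; linarith
    · obtain ⟨h1, h2⟩ := hvF v hv h
      have := hz2.2 v h1
      rw [h2]; linarith
  refine ⟨M • l + φ, Set.Subset.antisymm ?_ ?_⟩
  · intro z hz
    have h1 := hH.subset hz
    have h2 := hz
    rw [hφ] at h2
    have h3 := h1
    rw [hl] at h3
    refine ⟨h3.1, fun y hy => (le_of_hull S _ _ hle hy).trans ?_⟩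
    simp only [ContinuousLinearMap.add_apply, ContinuousLinearMap.smul_apply, smul_eq_mul]
    have h4 : l z = l z₀ := le_antisymm (hz1.2 z h3.1) (h3.2 z₀ hz1.1)
    have h5 := h2.2 z₀ hz2.1
    rw [h4]; linarith
  · rintro z ⟨hz, hz'⟩
    refine face_eq S (M • l + φ) _ hle H (hH.convex hFc) ?_ hz
      (le_antisymm (le_of_hull S _ _ hle hz) (hz' z₀ hz1.1))
    intro v hv h
    simp only [ContinuousLinearMap.add_apply, ContinuousLinearMap.smul_apply, smul_eq_mul] at h
    by_cases h1 : l v < l z₀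
    · have := hM v hv h1; linarith
    · obtain ⟨h2, h3⟩ := hvF v hv h1
      rw [hφ]
      refine ⟨h2, fun y hy => ?_⟩
      have := hz2.2 y hy
      rw [h3] at h; linarith

def ann (X : Set E) : Submodule ℝ (E × ℝ) where
  carrier := {φ | ∀ v ∈ X, ⟪φ.1, v⟫ + φ.2 = 0}
  add_mem' := by
    intro a b ha hb v hv
    have := ha v hv; have := hb v hv
    simp only [Prod.fst_add, Prod.snd_add, inner_add_left]; linarith
  zero_mem' := by intro v _; simp
  smul_mem' := by
    intro c a ha v hv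
    have := ha v hv
    simp only [Prod.smul_fst, Prod.smul_snd, real_inner_smul_left, smul_eq_mul]
    rw [← mul_add, this, mul_zero]

lemma mem_ann {X : Set E} {φ : E × ℝ} : φ ∈ ann X ↔ ∀ v ∈ X, ⟪φ.1, v⟫ + φ.2 = 0 := Iff.rfl

lemma ann_anti {X Y : Set E} (h : X ⊆ Y) : ann Y ≤ ann X := fun _ hφ v hv => hφ v (h hv)

lemma inner_eq_zero_of_ann {X : Set E} {φ : E × ℝ} (hφ : φ ∈ ann X) {w : E}
    (hw : w ∈ (affineSpan ℝ X).direction) : ⟪φ.1, w⟫ = 0 := by
  rw [direction_affineSpan, vectorSpan_def] at hw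
  induction hw using Submodule.span_induction with
  | mem w hw =>
    obtain ⟨a, ha, b, hb, rfl⟩ := hw
    have := hφ a ha; have := hφ b hb
    simp only [vsub_eq_sub, inner_sub_right]; linarith
  | zero => simp
  | add a b _ _ ha hb => simp [inner_add_right, ha, hb]
  | smul c a _ ha => simp [inner_smul_right, ha]

lemma sub_mem_dir {X : Set E} {a b : E} (ha : a ∈ X) (hb : b ∈ X) :
    a - b ∈ (affineSpan ℝ X).direction := by
  rw [direction_affineSpan]; exact vsub_mem_vectorSpan ℝ ha hb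

lemma finrank_ann [FiniteDimensional ℝ E] {X : Set E} (hX : X.Nonempty) :
    finrank ℝ (affineSpan ℝ X).direction + finrank ℝ (ann X) = finrank ℝ E := by
  obtain ⟨o, ho⟩ := hX
  let f : E →ₗ[ℝ] E × ℝ := LinearMap.prod LinearMap.id (-(innerₛₗ ℝ o))
  have hf : Function.Injective f := fun a b h => congrArg Prod.fst h
  have h1 : ann X = ((affineSpan ℝ X).direction)ᗮ.map f := by
    ext φ
    constructor
    · intro hφ
      refine ⟨φ.1, ?_, ?_⟩
      · rw [SetLike.mem_coe, Submodule.mem_orthogonal']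
        exact fun w hw => inner_eq_zero_of_ann hφ hw
      · have := hφ o ho
        ext
        · rfl
        · show -⟪o, φ.1⟫ = φ.2
          rw [real_inner_comm]; linarith
    · rintro ⟨a, ha, rfl⟩ v hv
      rw [SetLike.mem_coe, Submodule.mem_orthogonal'] at ha
      have := ha _ (sub_mem_dir hv ho)
      show ⟪a, v⟫ + -⟪o, a⟫ = 0
      rw [inner_sub_right] at this
      rw [real_inner_comm a o]; linarith
  rw [h1, ← (Submodule.equivMapOfInjective f hf _).finrank_eq]
  exact Submodule.finrank_add_finrank_orthogonal _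

lemma subset_of_ann_le [FiniteDimensional ℝ E] {P F F' : Set E} (hF : IsExposed ℝ P F)
    (hne : F.Nonempty) (hF' : F' ⊆ P) (h : ann F ≤ ann F') : F' ⊆ F := by
  obtain ⟨l, hl⟩ := hF hne
  obtain ⟨o, ho⟩ := hne
  have ho' := ho
  rw [hl] at ho'
  have h1 : ((InnerProductSpace.toDual ℝ E).symm l, -l o) ∈ ann F := by
    intro v hv
    rw [hl] at hv
    simp only [InnerProductSpace.toDual_symm_apply]
    have := hv.2 o ho'.1; have := ho'.2 v hv.1; linarith
  intro v hv
  have h2 := h h1 v hv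
  simp only [InnerProductSpace.toDual_symm_apply] at h2
  rw [hl]
  refine ⟨hF' hv, fun y hy => ?_⟩
  have := ho'.2 y hy; linarith

theorem config [FiniteDimensional ℝ E] {P : Set E} {J L : Type*} [Finite J] (r : ℕ)
    (F : J → Set E) (hFi : Function.Injective F) (hF : ∀ p, IsExposed ℝ P (F p))
    (hFn : ∀ p, (F p).Nonempty) (hFd : ∀ p, finrank ℝ (affineSpan ℝ (F p)).direction = r + 1)
    (G : L → Set E) (hGn : ∀ g, (G g).Nonempty)
    (hGd : ∀ g, finrank ℝ (affineSpan ℝ (G g)).direction = r) :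
    ∃ (x : J → E × ℝ) (θ : L → E × ℝ), Function.Injective x ∧
      (∀ p q g, G g ⊆ F p → G g ⊆ F q → ∃ τ : ℝ, x q = x p + τ • θ g) ∧
      ∀ p g, G g ⊆ F p → θ g ∈ ann (G g) ∧ θ g ∉ ann (F p) := by
  classical
  set D := finrank ℝ E - (r + 1) with hD
  have hA : ∀ p, finrank ℝ (ann (F p)) = D := fun p => by
    have := finrank_ann (hFn p); have := hFd p; omega
  obtain ⟨μ, hμ⟩ := generic D (fun p => ann (F p)) (fun p => (hA p).le)
  have hsurj : ∀ p, (ann (F p)).map μ = ⊤ := by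
    intro p
    apply Submodule.eq_top_of_finrank_eq
    have h1 := LinearMap.finrank_range_add_finrank_ker (μ.domRestrict (ann (F p)))
    have h2 : LinearMap.ker (μ.domRestrict (ann (F p))) = ⊥ := by
      rw [LinearMap.ker_domRestrict, ← Submodule.disjoint_iff_comap_eq_bot]; exact hμ p
    rw [h2, LinearMap.range_domRestrict, hA p] at h1
    simpa using h1
  obtain ⟨c, hc⟩ := Submodule.exists_forall_notMem_of_forall_ne_top
    (ι := {pq : J × J // pq.1 ≠ pq.2})
    (fun pq => (ann (F pq.1.1) ⊓ ann (F pq.1.2)).map μ) (by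
      rintro ⟨⟨p, q⟩, hpq⟩ htop
      have h1 : finrank ℝ ((ann (F p) ⊓ ann (F q)).map μ) ≤ finrank ℝ (ann (F p) ⊓ ann (F q) :
        Submodule ℝ (E × ℝ)) := Submodule.finrank_map_le _ _
      simp only at htop
      rw [htop] at h1
      simp only [finrank_top, finrank_fintype_fun_eq_card, Fintype.card_fin] at h1
      have h2 : ann (F p) ⊓ ann (F q) = ann (F p) :=
        Submodule.eq_of_le_of_finrank_le inf_le_left (by rw [hA p]; exact h1)
      have h3 : ann (F p) ⊓ ann (F q) = ann (F q) :=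
        Submodule.eq_of_le_of_finrank_le inf_le_right (by rw [hA q]; exact h1)
      apply hpq
      apply hFi
      exact Set.Subset.antisymm
        (subset_of_ann_le (hF q) (hFn q) (hF p).subset (h3 ▸ inf_le_left))
        (subset_of_ann_le (hF p) (hFn p) (hF q).subset (h2 ▸ inf_le_right)))
  have hx : ∀ p, ∃ x ∈ ann (F p), μ x = c := fun p => by
    have : c ∈ (ann (F p)).map μ := by rw [hsurj p]; trivial
    exact this
  choose x hx1 hx2 using hx
  have hθ : ∀ g, ∃ θ : E × ℝ, (∃ p, G g ⊆ F p) → θ ∈ ann (G g) ∧ μ θ = 0 ∧ θ ≠ 0 ∧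
      ∀ φ ∈ ann (G g), μ φ = 0 → ∃ t : ℝ, t • θ = φ := by
    intro g
    by_cases h : ∃ p, G g ⊆ F p
    · obtain ⟨p, hp⟩ := h
      have h1 := LinearMap.finrank_range_add_finrank_ker (μ.domRestrict (ann (G g)))
      have h2 : (ann (G g)).map μ = ⊤ :=
        top_le_iff.mp (hsurj p ▸ Submodule.map_mono (ann_anti hp))
      rw [LinearMap.range_domRestrict, h2] at h1
      simp only [finrank_top, finrank_fintype_fun_eq_card, Fintype.card_fin] at h1
      have h3 := finrank_ann (hGn g)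
      have h4 := finrank_ann (hFn p)
      have h5 : finrank ℝ (LinearMap.ker (μ.domRestrict (ann (G g)))) = 1 := by
        have := hGd g; have := hFd p; have := hA p; omega
      have h6 : finrank ℝ (ann (G g) ⊓ LinearMap.ker μ : Submodule ℝ (E × ℝ)) = 1 := by
        rw [← h5, LinearMap.ker_domRestrict, ← Submodule.map_comap_subtype,
          Submodule.finrank_map_subtype_eq]
      obtain ⟨v, hv0, hv⟩ := finrank_eq_one_iff'.mp h6
      refine ⟨v.1, fun _ => ⟨v.2.1, v.2.2, fun h => hv0 (Subtype.ext h), ?_⟩⟩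
      intro φ hφ hφ0
      obtain ⟨t, ht⟩ := hv ⟨φ, hφ, hφ0⟩
      exact ⟨t, congrArg (fun z => z.1) ht⟩
    · exact ⟨0, fun h' => absurd h' h⟩
  choose θ hθ using hθ
  refine ⟨x, θ, ?_, ?_, ?_⟩
  · intro p q h
    by_contra hpq
    exact hc ⟨(p, q), hpq⟩ ⟨x p, ⟨hx1 p, h ▸ hx1 q⟩, hx2 p⟩
  · intro p q g hp hq
    obtain ⟨t, ht⟩ := (hθ g ⟨p, hp⟩).2.2.2 (x q - x p)
      (sub_mem (ann_anti hq (hx1 q)) (ann_anti hp (hx1 p))) (by simp [hx2])
    exact ⟨t, by rw [ht]; abel⟩
  · intro p g hp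
    obtain ⟨h1, h2, h3, -⟩ := hθ g ⟨p, hp⟩
    exact ⟨h1, fun h => h3 (Submodule.disjoint_def.mp (hμ p) _ h h2)⟩

end poly

end Pool.Agent.EGK
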