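import Pool.Agent.H.MP_617eb0_gt.C

set_option autoImplicit false

namespace Pool.Agent.EGK

open Finset Module MeasureTheory
open scoped RealInnerProductSpace ENNReal NNReal

variable {r : ℕ}

lemma vol_cyl (i : Fin (r + 1)) (A : Set ℝ) (Y : Set (Fin r → ℝ)) :
    volume {x : Fin (r + 1) → ℝ | x i ∈ A ∧ i.removeNth x ∈ Y} = volume A * volume Y := by
  have h := (volume_preserving_piFinSuccAbove (fun _ : Fin (r + 1) => ℝ) i).measure_preimage_equiv
    (A ×ˢ Y)
  rw [Measure.volume_eq_prod, Measure.prod_prod] at h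
  exact h

lemma continuous_removeNth (i : Fin (r + 1)) :
    Continuous (fun x : Fin (r + 1) → ℝ => i.removeNth x) :=
  continuous_pi fun k => continuous_apply (i.succAbove k)

lemma null_of_proj (i : Fin (r + 1)) (K : Set (Fin (r + 1) → ℝ))
    (h : volume ((fun x : Fin (r + 1) → ℝ => i.removeNth x) '' K) = 0) : volume K = 0 := by
  have h1 := vol_cyl i Set.univ ((fun x : Fin (r + 1) → ℝ => i.removeNth x) '' K)
  rw [h, mul_zero] at h1
  refine measure_mono_null (fun x hx => ?_) h1
  exact ⟨Set.mem_univ _, x, hx, rfl⟩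

lemma lw (hr : 1 ≤ r) (K : Set (Fin (r + 1) → ℝ)) (hK : IsCompact K) (b : Fin (r + 1) → ℝ≥0∞)
    (Q : ℝ≥0∞)
    (h : ∀ i, b i * volume ((fun x : Fin (r + 1) → ℝ => i.removeNth x) '' K) ≤ Q) :
    volume K ^ r * ∏ i, b i ≤ (((r + 1 : ℕ) : ℝ≥0∞) * Q) ^ (r + 1) := by
  classical
  let D : Fin (r + 1) → Set (Fin (r + 1) → ℝ) := fun i =>
    {x | x i ∈ Set.Icc (0 : ℝ) 1 ∧
      i.removeNth x ∈ (fun x : Fin (r + 1) → ℝ => i.removeNth x) '' K}
  have hD : ∀ i, MeasurableSet (D i) := fun i =>
    (measurableSet_Icc.preimage (measurable_pi_apply i)).inter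
      ((hK.image (continuous_removeNth i)).isClosed.measurableSet.preimage
        (continuous_removeNth i).measurable)
  let f : (Fin (r + 1) → ℝ) → ℝ≥0∞ := fun x => ∑ j, (D j).indicator (fun _ => b j) x
  have hf : Measurable f := Finset.measurable_sum _ fun j _ => measurable_const.indicator (hD j)
  have hr' : (0 : ℝ) < r := by exact_mod_cast hr
  have hp : Real.HolderConjugate (Fintype.card (Fin (r + 1))) (((r : ℝ) + 1) / r) := by
    rw [Real.holderConjugate_iff]
    simp only [Fintype.card_fin]
    push_cast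
    refine ⟨by linarith, by field_simp; ring⟩
  have h1 := lintegral_prod_lintegral_pow_le (fun _ : Fin (r + 1) => (volume : Measure ℝ)) hp hf
  have h2 : ∫⁻ x, f x ∂(Measure.pi fun _ : Fin (r + 1) => (volume : Measure ℝ)) ≤
      ((r + 1 : ℕ) : ℝ≥0∞) * Q := by
    rw [lintegral_finset_sum _ fun j _ => measurable_const.indicator (hD j)]
    calc _ ≤ ∑ _j : Fin (r + 1), Q := Finset.sum_le_sum fun j _ => by
            rw [lintegral_indicator_const (hD j), ← volume_pi, vol_cyl]
            simpa using h j
      _ = _ := by simp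
  have h3 : ∀ x ∈ K, ∀ i, b i ≤ ∫⁻ t, f (Function.update x i t) := by
    intro x hx i
    calc b i = ∫⁻ t, (Set.Icc (0 : ℝ) 1).indicator (fun _ => b i) t := by
          rw [lintegral_indicator_const measurableSet_Icc]; simp
      _ ≤ _ := by
          refine lintegral_mono fun t => ?_
          refine le_trans ?_ (Finset.single_le_sum (f := fun j =>
            (D j).indicator (fun _ => b j) (Function.update x i t)) (fun _ _ => zero_le)
            (Finset.mem_univ i))
          by_cases ht : t ∈ Set.Icc (0 : ℝ) 1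
          · have : Function.update x i t ∈ D i :=
              ⟨by simpa using ht, x, hx, by simp⟩
            simp [ht, this]
          · simp [ht]
  have h4 : (∏ i, b i ^ ((1 : ℝ) / r)) * volume K ≤
      ∫⁻ x, ∏ i, (∫⁻ t, f (Function.update x i t)) ^
        ((1 : ℝ) / ((Fintype.card (Fin (r + 1)) : ℝ) - 1))
        ∂(Measure.pi fun _ : Fin (r + 1) => (volume : Measure ℝ)) := by
    rw [volume_pi, ← lintegral_indicator_const hK.isClosed.measurableSet]
    refine lintegral_mono fun x => ?_
    by_cases hx : x ∈ K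
    · simp only [Set.indicator_of_mem hx, Fintype.card_fin, Nat.cast_add, Nat.cast_one,
        add_sub_cancel_right]
      exact Finset.prod_le_prod' fun i _ => ENNReal.rpow_le_rpow (h3 x hx i) (by positivity)
    · simp [hx]
  have h5 := (h4.trans h1).trans (ENNReal.rpow_le_rpow h2 (by positivity))
  have h6 := pow_le_pow_left' h5 r
  rw [mul_pow, ← Finset.prod_pow] at h6
  have e1 : ∀ i, (b i ^ ((1 : ℝ) / r)) ^ r = b i := by
    intro i
    rw [← ENNReal.rpow_natCast, ← ENNReal.rpow_mul]
    have : (1 : ℝ) / r * r = 1 := by field_simp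
    rw [this, ENNReal.rpow_one]
  have e2 : ((((r + 1 : ℕ) : ℝ≥0∞) * Q) ^ (((r : ℝ) + 1) / r)) ^ r =
      (((r + 1 : ℕ) : ℝ≥0∞) * Q) ^ (r + 1) := by
    rw [← ENNReal.rpow_natCast, ← ENNReal.rpow_mul, ← ENNReal.rpow_natCast]
    congr 1
    push_cast
    field_simp
  simp only [e1, e2] at h6
  rwa [mul_comm]

lemma hyper_null (u : Fin r → ℝ) (hu : u ≠ 0) (c : ℝ) :
    volume {y : Fin r → ℝ | ∑ k, u k * y k = c} = 0 := by
  classical
  rcases Set.eq_empty_or_nonempty {y : Fin r → ℝ | ∑ k, u k * y k = c} with h | ⟨y₀, hy₀⟩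
  · rw [h]; simp
  let φ : (Fin r → ℝ) →ₗ[ℝ] ℝ := ∑ k, u k • LinearMap.proj k
  have hφ : ∀ y, φ y = ∑ k, u k * y k := by intro y; simp [φ]
  have h1 : LinearMap.ker φ ≠ ⊤ := by
    intro h
    apply hu
    funext k
    have : Pi.single k (1 : ℝ) ∈ LinearMap.ker φ := by rw [h]; trivial
    rw [LinearMap.mem_ker, hφ] at this
    simpa [Pi.single_apply] using this
  have h2 := Measure.addHaar_submodule (volume : Measure (Fin r → ℝ)) _ h1
  rw [← measure_preimage_add_right volume (-y₀)] at h2
  refine measure_mono_null (fun y hy => ?_) h2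
  simp only [Set.mem_setOf_eq] at hy hy₀
  simp only [Set.mem_preimage, SetLike.mem_coe, LinearMap.mem_ker, map_add, map_neg]
  rw [hφ, hφ]
  linarith

lemma exists_support {V : Type*} [NormedAddCommGroup V] [NormedSpace ℝ V] [FiniteDimensional ℝ V]
    {K : Set V} (hK : Convex ℝ K) {x : V} (hx : x ∈ K) (hx' : x ∉ interior K) :
    ∃ f : V →L[ℝ] ℝ, f ≠ 0 ∧ ∀ a ∈ K, f a ≤ f x := by
  by_cases h : (interior K).Nonempty
  · exact geometric_hahn_banach_of_nonempty_interior_point hK hx' h
  · rw [hK.interior_nonempty_iff_affineSpan_eq_top] at h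
    have h1 : (affineSpan ℝ K).direction < ⊤ := by
      rw [lt_top_iff_ne_top]
      intro h2
      exact h ((AffineSubspace.direction_eq_top_iff_of_nonempty
        ⟨x, subset_affineSpan ℝ K hx⟩).mp h2)
    obtain ⟨f, hf0, hf⟩ := Submodule.exists_le_ker_of_lt_top _ h1
    refine ⟨LinearMap.toContinuousLinearMap f, fun h => hf0 ?_, fun a ha => ?_⟩
    · ext v; exact congrArg (fun g => g v) h
    · have : a - x ∈ (affineSpan ℝ K).direction := by
        rw [direction_affineSpan]; exact vsub_mem_vectorSpan ℝ ha hx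
      have := hf this
      rw [LinearMap.mem_ker, map_sub] at this
      simp only [LinearMap.coe_toContinuousLinearMap']
      linarith

lemma greedy {W : Type*} [AddCommGroup W] [Module ℝ W] [FiniteDimensional ℝ W] {L : Type*}
    [Finite L] (n : L → W) (β : L → ℝ) (hspan : Submodule.span ℝ (Set.range n) = ⊤) :
    ∀ j, j ≤ finrank ℝ W → ∃ T : Fin j → L, LinearIndependent ℝ (fun i => n (T i)) ∧
      ∀ i g, n g ∉ Submodule.span ℝ {v | ∃ k, k < i ∧ n (T k) = v} → β (T i) ≤ β g := by
  intro j
  induction j with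
  | zero => intro _; exact ⟨Fin.elim0, linearIndependent_empty_type, fun i => i.elim0⟩
  | succ j ih =>
    intro hj
    obtain ⟨T, hT1, hT2⟩ := ih (by omega)
    have hne : {g | n g ∉ Submodule.span ℝ (Set.range fun i => n (T i))}.Nonempty := by
      by_contra h
      rw [Set.not_nonempty_iff_eq_empty, Set.eq_empty_iff_forall_notMem] at h
      have h1 : Submodule.span ℝ (Set.range fun i => n (T i)) = ⊤ := by
        rw [eq_top_iff, ← hspan, Submodule.span_le]
        rintro _ ⟨g, rfl⟩
        simpa using h g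
      have h2 := finrank_span_eq_card hT1
      rw [h1] at h2
      simp at h2
      omega
    obtain ⟨g₀, hg₀, hmin⟩ := Set.exists_min_image _ β (Set.toFinite _) hne
    refine ⟨Fin.snoc T g₀, ?_, ?_⟩
    · have : (fun i => n ((Fin.snoc T g₀ : Fin (j + 1) → L) i)) =
          Fin.snoc (fun i => n (T i)) (n g₀) := by
        funext i; induction i using Fin.lastCases <;> simp
      rw [this, linearIndependent_finSnoc]
      exact ⟨hT1, hg₀⟩
    · intro i g hg
      induction i using Fin.lastCases with
      | last =>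
        simp only [Fin.snoc_last]
        refine hmin g fun h => hg (Submodule.span_mono ?_ h)
        rintro _ ⟨k, rfl⟩
        exact ⟨k.castSucc, Fin.castSucc_lt_last k, by simp⟩
      | cast i =>
        simp only [Fin.snoc_castSucc]
        refine hT2 i g fun h => hg (Submodule.span_mono ?_ h)
        rintro _ ⟨k, hk, rfl⟩
        exact ⟨k.castSucc, by simpa using hk, by simp⟩

section geo

variable {E : Type*} [NormedAddCommGroup E] [InnerProductSpace ℝ E]

noncomputable def co (o : E) (e : Fin (r + 1) → E) (z : E) : Fin (r + 1) → ℝ :=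
  fun i => ⟪e i, z - o⟫

lemma co_lip (o : E) (e : Fin (r + 1) → E) (he : ∀ i, ‖e i‖ = 1) (i : Fin (r + 1)) :
    LipschitzWith 1 (fun z => i.removeNth (co o e z)) := by
  refine LipschitzWith.mk_one fun z w => ?_
  rw [dist_pi_le_iff dist_nonneg]
  intro k
  simp only [Fin.removeNth, co]
  rw [Real.dist_eq, ← inner_sub_right, dist_eq_norm]
  have := abs_real_inner_le_norm (e (i.succAbove k)) (z - o - (w - o))
  rw [he, one_mul] at this
  simpa using this

lemma co_cont (o : E) (e : Fin (r + 1) → E) : Continuous (co o e) :=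
  continuous_pi fun i => by unfold co; fun_prop

lemma co_convex (o : E) (e : Fin (r + 1) → E) {F : Set E} (hF : Convex ℝ F) :
    Convex ℝ (co o e '' F) := by
  rintro _ ⟨x, hx, rfl⟩ _ ⟨y, hy, rfl⟩ a b ha hb hab
  refine ⟨a • x + b • y, hF hx hy ha hb hab, ?_⟩
  funext i
  simp only [co, Pi.add_apply, Pi.smul_apply, smul_eq_mul, inner_sub_right, inner_add_right,
    inner_smul_right]
  have : b = 1 - a := by linarith
  rw [this]; ring

variable [MeasurableSpace E] [BorelSpace E]

lemma vol_face_le {F : Set E} {o : E} (ho : o ∈ F)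
    (e : OrthonormalBasis (Fin (r + 1)) ℝ (affineSpan ℝ F).direction) :
    μH[((r + 1 : ℕ) : ℝ)] F ≤ ((r + 1 : ℕ) : ℝ≥0∞) ^ (r + 1) *
      volume (co o (fun i => (e i : E)) '' F) := by
  let pa : (Fin (r + 1) → ℝ) → E := fun x => o + ∑ i, x i • (e i : E)
  have hlip : LipschitzWith ((r + 1 : ℕ) : ℝ≥0) pa := by
    refine LipschitzWith.of_dist_le_mul fun x y => ?_
    have h0 : pa x - pa y = ∑ i, (x i - y i) • (e i : E) := by
      simp only [pa, sub_smul, Finset.sum_sub_distrib]; abel
    rw [dist_eq_norm, dist_eq_norm, h0]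
    refine (norm_sum_le _ _).trans ?_
    calc _ ≤ ∑ _i : Fin (r + 1), ‖x - y‖ := Finset.sum_le_sum fun i _ => by
            rw [norm_smul]
            have h1 : ‖(e i : E)‖ = 1 := e.orthonormal.1 i
            rw [h1, mul_one]
            exact norm_le_pi_norm (x - y) i
      _ = _ := by simp
  have h1 : F ⊆ pa '' (co o (fun i => (e i : E)) '' F) := by
    intro z hz
    refine ⟨_, ⟨z, hz, rfl⟩, ?_⟩
    have h2 := congrArg Subtype.val (e.sum_repr' ⟨z - o, sub_mem_dir hz ho⟩)
    simp only [AddSubmonoidClass.coe_finset_sum, SetLike.val_smul, Submodule.coe_inner] at h2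
    simp only [pa, co]
    rw [h2]; abel
  refine (measure_mono h1).trans ((hlip.hausdorffMeasure_image_le (by positivity) _).trans ?_)
  have h3 := hausdorffMeasure_pi_real (ι := Fin (r + 1))
  rw [Fintype.card_fin] at h3
  rw [h3, ENNReal.rpow_natCast]
  simp

lemma proj_le (o : E) (e : Fin (r + 1) → E) (he : ∀ i, ‖e i‖ = 1) (i : Fin (r + 1)) (G : Set E) :
    volume ((fun z => i.removeNth (co o e z)) '' G) ≤ μH[(r : ℝ)] G := by
  have h := (co_lip o e he i).hausdorffMeasure_image_le (d := r) (by positivity) G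
  have h3 := hausdorffMeasure_pi_real (ι := Fin r)
  rw [Fintype.card_fin] at h3
  rw [h3] at h
  simpa using h

lemma cover [FiniteDimensional ℝ E] (S : Finset E) {F : Set E}
    (hF : IsExposed ℝ (convexHull ℝ (S : Set E)) F) {o : E}
    (e : OrthonormalBasis (Fin (r + 1)) ℝ (affineSpan ℝ F).direction) (i : Fin (r + 1))
    {L : Type*} (G : L → Set E) (A : Finset L)
    (hA : ∀ H, IsExposed ℝ (convexHull ℝ (S : Set E)) H → H.Nonempty → H ⊆ F →
      finrank ℝ (affineSpan ℝ H).direction = r → (e i : E) ∉ (affineSpan ℝ H).direction →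
      ∃ g ∈ A, G g = H) :
    volume ((fun x : Fin (r + 1) → ℝ => i.removeNth x) '' (co o (fun i => (e i : E)) '' F)) ≤
      ∑ g ∈ A, μH[(r : ℝ)] (G g) := by
  classical
  let W := (affineSpan ℝ F).direction
  let e' : Fin (r + 1) → E := fun i => (e i : E)
  have hen : ∀ i, ‖e' i‖ = 1 := fun i => e.orthonormal.1 i
  have hWr : finrank ℝ W = r + 1 := by
    rw [finrank_eq_card_basis e.toBasis, Fintype.card_fin]
  have hFc : IsCompact F := hF.isCompact (S.finite_toSet.isCompact_convexHull ℝ)
  have hFv : Convex ℝ F := hF.convex (convex_convexHull ℝ _)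
  let π : E → Fin r → ℝ := fun z => i.removeNth (co o e' z)
  let B : Set (Set E) := {H | (IsExposed ℝ (convexHull ℝ (S : Set E)) H ∧ H.Nonempty) ∧
    volume (π '' H) = 0}
  have hB : B.Finite := (faces_finite S).subset fun H hH => hH.1
  have hBn : volume (⋃ H ∈ B, π '' H) = 0 :=
    (measure_biUnion_null_iff hB.countable).mpr fun H hH => hH.2
  have hsub : (fun x : Fin (r + 1) → ℝ => i.removeNth x) '' (co o e' '' F) ⊆
      (⋃ g ∈ A, π '' G g) ∪ ⋃ H ∈ B, π '' H := by
    rintro _ ⟨_, ⟨z, hz, rfl⟩, rfl⟩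
    have hc : IsCompact (F ∩ {w | π w = π z}) :=
      hFc.inter_right (isClosed_eq ((continuous_removeNth i).comp (co_cont o e')) continuous_const)
    obtain ⟨w, ⟨hwF, hwπ⟩, hmax⟩ := hc.exists_isMaxOn ⟨z, hz, rfl⟩ (f := fun w => co o e' w i)
      ((continuous_apply i).comp (co_cont o e')).continuousOn
    have hni : co o e' w ∉ interior (co o e' '' F) := by
      intro hint
      have h1 : ContinuousAt (fun t : ℝ => co o e' w + Pi.single i t) 0 :=
        (continuous_const.add (continuous_single (A := fun _ : Fin (r + 1) => ℝ) i)).continuousAt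
      have h2 : ∀ᶠ t in nhds (0 : ℝ), co o e' w + Pi.single i t ∈ co o e' '' F := by
        apply h1.eventually_mem
        simpa using mem_interior_iff_mem_nhds.mp hint
      have h3 : ∀ᶠ t in nhdsWithin (0 : ℝ) (Set.Ioi 0), 0 < t := self_mem_nhdsWithin
      obtain ⟨t, ht0, w', hw', hw2⟩ := (h3.and (h2.filter_mono nhdsWithin_le_nhds)).exists
      have h4 : π w' = π z := by
        rw [← hwπ]
        funext k
        simp only [π, Fin.removeNth, hw2, Pi.add_apply]
        rw [Pi.single_eq_of_ne (Fin.succAbove_ne i k), add_zero]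
      have h5 := hmax (show w' ∈ F ∩ {w | π w = π z} from ⟨hw', h4⟩)
      simp only [Set.mem_setOf_eq, hw2, Pi.add_apply, Pi.single_eq_same] at h5
      linarith
    obtain ⟨f, hf0, hf⟩ := exists_support (co_convex o e' hFv) ⟨w, hwF, rfl⟩ hni
    let l : E →L[ℝ] ℝ := f.comp (ContinuousLinearMap.pi fun k => innerSL ℝ (e' k))
    have hl : ∀ y, f (co o e' y) = l y - l o := by
      intro y
      rw [← map_sub]
      rfl
    set H := l.toExposed F with hH
    have hwH : w ∈ H := ⟨hwF, fun y hy => by
      have := hf _ ⟨y, hy, rfl⟩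
      rw [hl, hl] at this; linarith⟩
    have hHF : H ⊆ F := fun y hy => hy.1
    have hHe : IsExposed ℝ (convexHull ℝ (S : Set E)) H :=
      exposed_trans S hF ContinuousLinearMap.toExposed.isExposed
    have hle : (affineSpan ℝ H).direction ≤ W :=
      AffineSubspace.direction_le (affineSpan_mono ℝ hHF)
    have hker : (affineSpan ℝ H).direction ≤ LinearMap.ker l.toLinearMap := by
      rw [direction_affineSpan, vectorSpan_def, Submodule.span_le]
      rintro _ ⟨a, ha, b, hb, rfl⟩
      have h1 := ha.2 b hb.1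
      have h2 := hb.2 a ha.1
      simp only [vsub_eq_sub, SetLike.mem_coe, LinearMap.mem_ker, map_sub,
        ContinuousLinearMap.coe_coe]
      linarith
    have hlt : (affineSpan ℝ H).direction < W := by
      refine lt_of_le_of_ne hle fun h => hf0 ?_
      suffices hk : ∀ k, f (Pi.single k 1) = 0 by
        ext v
        rw [pi_eq_sum_univ' v]
        simp [hk]
      intro k
      have h1 : l (e' k) = 0 := hker (h ▸ (e k).2)
      have h2 : (ContinuousLinearMap.pi fun j => innerSL ℝ (e' j)) (e' k) = Pi.single k 1 := by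
        funext j
        have := orthonormal_iff_ite.mp e.orthonormal j k
        rw [Submodule.coe_inner] at this
        simp only [ContinuousLinearMap.pi_apply, innerSL_apply_apply, Pi.single_apply]
        exact this
      simp only [l, ContinuousLinearMap.comp_apply, h2] at h1
      simpa using h1
    have hlt' := Submodule.finrank_lt_finrank_of_lt hlt
    have hzw : i.removeNth (co o e' z) ∈ π '' H := ⟨w, hwH, hwπ⟩
    by_cases hcase : (affineSpan ℝ H).direction ⊔ Submodule.span ℝ {e' i} = W
    · left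
      have h1 := Submodule.finrank_add_le_finrank_add_finrank (affineSpan ℝ H).direction
        (Submodule.span ℝ {e' i})
      have h2 := finrank_span_le_card (R := ℝ) ({e' i} : Set E)
      rw [Set.toFinset_singleton, Finset.card_singleton] at h2
      rw [hcase] at h1
      have h3 : e' i ∉ (affineSpan ℝ H).direction := by
        intro h
        rw [sup_eq_left.mpr ((Submodule.span_singleton_le_iff_mem _ _).mpr h)] at hcase
        exact hlt.ne hcase
      obtain ⟨g, hg, hgH⟩ := hA H hHe ⟨w, hwH⟩ hHF (by omega) h3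
      exact Set.mem_biUnion hg (hgH ▸ hzw)
    · right
      refine Set.mem_biUnion (x := H) ⟨⟨hHe, w, hwH⟩, ?_⟩ hzw
      have h1 : (affineSpan ℝ H).direction ⊔ Submodule.span ℝ {e' i} ≤ W :=
        sup_le hle ((Submodule.span_singleton_le_iff_mem _ _).mpr (e i).2)
      have h2 := Submodule.finrank_lt_finrank_of_lt (lt_of_le_of_ne h1 hcase)
      have h3 := Submodule.finrank_add_inf_finrank_orthogonal h1
      have h4 : ((affineSpan ℝ H).direction ⊔ Submodule.span ℝ {e' i})ᗮ ⊓ W ≠ ⊥ := by
        intro h; rw [h] at h3; simp at h3; omega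
      obtain ⟨u, ⟨hu1, hu2⟩, hu0⟩ := Submodule.exists_mem_ne_zero_of_ne_bot h4
      rw [SetLike.mem_coe, Submodule.mem_orthogonal] at hu1
      have hui : ⟪e' i, u⟫ = 0 :=
        hu1 _ (Submodule.mem_sup_right (Submodule.mem_span_singleton_self _))
      have hrep : ∑ k, ⟪e' k, u⟫ • e' k = u := by
        have h5 := congrArg Subtype.val (e.sum_repr' ⟨u, hu2⟩)
        simpa only [AddSubmonoidClass.coe_finset_sum, SetLike.val_smul, Submodule.coe_inner]
          using h5
      have hun : (fun k => ⟪e' (i.succAbove k), u⟫) ≠ 0 := by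
        intro h
        apply hu0
        rw [← hrep, Fin.sum_univ_succAbove _ i, hui]
        have : ∀ k, ⟪e' (i.succAbove k), u⟫ = 0 := fun k => congrFun h k
        simp [this]
      refine measure_mono_null ?_ (hyper_null _ hun ⟪u, w - o⟫)
      rintro _ ⟨y, hy, rfl⟩
      have h6 : ⟪y - w, u⟫ = 0 := hu1 _ (Submodule.mem_sup_left (sub_mem_dir hy hwH))
      have h7 : ⟪u, y - o⟫ = ∑ k, ⟪e' k, u⟫ * ⟪e' k, y - o⟫ := by
        conv_lhs => rw [← hrep]
        simp [sum_inner, real_inner_smul_left]
      rw [Fin.sum_univ_succAbove _ i, hui, zero_mul, zero_add] at h7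
      simp only [Set.mem_setOf_eq, π, Fin.removeNth, co]
      rw [← h7]
      rw [real_inner_comm, inner_sub_right] at h6
      simp only [inner_sub_right]
      linarith
  refine (measure_mono hsub).trans ((measure_union_le _ _).trans ?_)
  rw [hBn, add_zero]
  exact (measure_biUnion_finset_le _ _).trans
    (Finset.sum_le_sum fun g _ => proj_le o e' hen i (G g))

end geo

end Pool.Agent.EGK
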