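import Pool.Agent.H.MP_617eb0_gt.D

set_option autoImplicit false

namespace Pool.Agent.EGK

open Finset Module MeasureTheory
open scoped RealInnerProductSpace ENNReal NNReal

variable {r : ℕ}
variable {E : Type*} [NormedAddCommGroup E] [InnerProductSpace ℝ E] [FiniteDimensional ℝ E]

lemma inner_ne_zero {F G : Set E} (hGF : G ⊆ F) (hGn : G.Nonempty)
    (hFd : finrank ℝ (affineSpan ℝ F).direction = r + 1)
    (hGd : finrank ℝ (affineSpan ℝ G).direction = r) {θ : E × ℝ} (h1 : θ ∈ ann G) (h2 : θ ∉ ann F)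
    {v : E} (hv : v ∈ (affineSpan ℝ F).direction) (hv' : v ∉ (affineSpan ℝ G).direction) :
    ⟪θ.1, v⟫ ≠ 0 := by
  intro h0
  apply h2
  have hle : (affineSpan ℝ G).direction ≤ (affineSpan ℝ F).direction :=
    AffineSubspace.direction_le (affineSpan_mono ℝ hGF)
  have h3 : (affineSpan ℝ G).direction ⊔ Submodule.span ℝ {v} ≤ (affineSpan ℝ F).direction :=
    sup_le hle ((Submodule.span_singleton_le_iff_mem _ _).mpr hv)
  have h4 : (affineSpan ℝ G).direction < (affineSpan ℝ G).direction ⊔ Submodule.span ℝ {v} := by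
    refine lt_of_le_of_ne le_sup_left fun h => hv' ?_
    rw [h]; exact Submodule.mem_sup_right (Submodule.mem_span_singleton_self _)
  have h5 := Submodule.finrank_lt_finrank_of_lt h4
  have h6 := Submodule.eq_of_le_of_finrank_le h3 (by omega)
  have h7 : (affineSpan ℝ F).direction ≤ LinearMap.ker (innerₛₗ ℝ θ.1) := by
    rw [← h6]
    refine sup_le (fun w hw => ?_) ((Submodule.span_singleton_le_iff_mem _ _).mpr ?_)
    · exact inner_eq_zero_of_ann h1 hw
    · exact h0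
  obtain ⟨o, ho⟩ := hGn
  intro z hz
  have h8 : ⟪θ.1, z - o⟫ = 0 := h7 (sub_mem_dir hz (hGF ho))
  have h9 := h1 o ho
  rw [inner_sub_right] at h8
  linarith

variable [MeasurableSpace E] [BorelSpace E]

lemma face_lt_top (S : Finset E) {F : Set E} (hF : IsExposed ℝ (convexHull ℝ (S : Set E)) F)
    (hFn : F.Nonempty) (hFd : finrank ℝ (affineSpan ℝ F).direction = r + 1) :
    μH[((r + 1 : ℕ) : ℝ)] F < ⊤ := by
  obtain ⟨o, ho⟩ := hFn
  let e : OrthonormalBasis (Fin (r + 1)) ℝ (affineSpan ℝ F).direction :=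
    (stdOrthonormalBasis ℝ _).reindex (finCongr hFd)
  refine (vol_face_le ho e).trans_lt (ENNReal.mul_lt_top (ENNReal.pow_lt_top (by simp)) ?_)
  exact ((hF.isCompact (S.finite_toSet.isCompact_convexHull ℝ)).image (co_cont _ _)).measure_lt_top

theorem single (hr : 1 ≤ r) (S : Finset E) {F : Set E}
    (hF : IsExposed ℝ (convexHull ℝ (S : Set E)) F)
    (hFn : F.Nonempty) (hFd : finrank ℝ (affineSpan ℝ F).direction = r + 1)
    {L : Type*} [Fintype L] (G : L → Set E) [∀ g, Decidable (G g ⊆ F)]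
    (hGall : ∀ H, IsExposed ℝ (convexHull ℝ (S : Set E)) H → H.Nonempty →
      finrank ℝ (affineSpan ℝ H).direction = r → ∃ g, G g = H)
    (hGn : ∀ g, (G g).Nonempty) (hGd : ∀ g, finrank ℝ (affineSpan ℝ (G g)).direction = r)
    (θ : L → E × ℝ) (hθ : ∀ g, G g ⊆ F → θ g ∈ ann (G g) ∧ θ g ∉ ann F)
    (β : L → ℝ) (hβ : ∀ g, 0 ≤ β g) (w : ℝ)
    (hw : ∀ T : Fin (r + 1) → L, (∀ i, G (T i) ⊆ F) → LinearIndependent ℝ (fun i => θ (T i)) →
      w ≤ 2 * ∏ i, (((r + 1 : ℕ) : ℝ) * β (T i))) :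
    μH[((r + 1 : ℕ) : ℝ)] F ^ r * ENNReal.ofReal w ≤
      (2 * ((r + 1 : ℕ) : ℝ≥0∞) ^ ((r + 1) * (r + 2))) *
        (∑ g ∈ univ.filter (fun g => G g ⊆ F), ENNReal.ofReal (β g) * μH[(r : ℝ)] (G g)) ^ (r + 1) := by
  classical
  obtain ⟨o, ho⟩ := hFn
  let W := (affineSpan ℝ F).direction
  let L' := {g // G g ⊆ F}
  let n : L' → W := fun g => W.orthogonalProjectionOnto (θ g.1).1
  have hn : ∀ (g : L') (v : W), ⟪v, n g⟫ = ⟪(θ g.1).1, (v : E)⟫ := by
    intro g v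
    simp only [n]
    rw [Submodule.inner_orthogonalProjectionOnto_eq_of_mem_left, real_inner_comm]
  have hcard : finrank ℝ W = Fintype.card (Fin (r + 1)) := by rw [Fintype.card_fin]; exact hFd
  have hK : ∀ e : Fin (r + 1) → E, IsCompact (co o e '' F) := fun e =>
    (hF.isCompact (S.finite_toSet.isCompact_convexHull ℝ)).image (co_cont _ _)
  have hcov : ∀ (e : OrthonormalBasis (Fin (r + 1)) ℝ W) (i : Fin (r + 1)),
      volume ((fun x : Fin (r + 1) → ℝ => i.removeNth x) '' (co o (fun i => (e i : E)) '' F)) ≤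
      ∑ g ∈ univ.filter (fun g => G g ⊆ F ∧ ⟪(θ g).1, (e i : E)⟫ ≠ 0), μH[(r : ℝ)] (G g) := by
    intro e i
    refine cover S hF e i G _ fun H h1 h2 h3 h4 h5 => ?_
    obtain ⟨g, rfl⟩ := hGall H h1 h2 h4
    refine ⟨g, Finset.mem_filter.mpr ⟨Finset.mem_univ _, h3, ?_⟩, rfl⟩
    exact inner_ne_zero h3 h2 hFd h4 (hθ g h3).1 (hθ g h3).2 (e i).2 h5
  by_cases hspan : Submodule.span ℝ (Set.range n) = ⊤
  · obtain ⟨T, hT1, hT2⟩ := greedy n (fun g => β g.1) hspan (r + 1) hFd.ge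
    let e := InnerProductSpace.gramSchmidtOrthonormalBasis hcard (fun i => n (T i))
    have hli : LinearIndependent ℝ (fun i => θ (T i).1) :=
      LinearIndependent.of_comp (W.orthogonalProjectionOnto.toLinearMap.comp
        (LinearMap.fst ℝ E ℝ)) hT1
    have h1 := hw (fun i => (T i).1) (fun i => (T i).2) hli
    set Q := ∑ g ∈ univ.filter (fun g => G g ⊆ F), ENNReal.ofReal (β g) * μH[(r : ℝ)] (G g)
      with hQ
    have h2 := lw hr _ (hK fun i => (e i : E)) (fun i => ENNReal.ofReal (β (T i).1)) Q (by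
      intro i
      refine (mul_le_mul_right (hcov e i) _).trans ?_
      rw [Finset.mul_sum]
      refine le_trans (Finset.sum_le_sum fun g hg => ?_) (Finset.sum_le_sum_of_subset
        (s := univ.filter (fun g => G g ⊆ F ∧ ⟪(θ g).1, (e i : E)⟫ ≠ 0)) ?_)
      · obtain ⟨-, hg1, hg2⟩ := Finset.mem_filter.mp hg
        refine mul_le_mul_left (ENNReal.ofReal_le_ofReal (hT2 i ⟨g, hg1⟩ fun h => hg2 ?_)) _
        rw [← hn ⟨g, hg1⟩ (e i)]
        have h3 : Submodule.span ℝ {v | ∃ k, k < i ∧ n (T k) = v} ≤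
            LinearMap.ker (innerₛₗ ℝ (e i)) := by
          rw [Submodule.span_le]
          rintro _ ⟨k, hk, rfl⟩
          exact InnerProductSpace.gramSchmidtOrthonormalBasis_inv_triangular hcard
            (fun i => n (T i)) hk
        exact h3 h
      · intro g hg
        obtain ⟨-, hg1, -⟩ := Finset.mem_filter.mp hg
        exact Finset.mem_filter.mpr ⟨Finset.mem_univ _, hg1⟩)
    have h3 := vol_face_le ho e
    have h4 : ENNReal.ofReal w ≤ 2 * (((r + 1 : ℕ) : ℝ≥0∞) ^ (r + 1) *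
        ∏ i, ENNReal.ofReal (β (T i).1)) := by
      refine (ENNReal.ofReal_le_ofReal h1).trans (le_of_eq ?_)
      rw [ENNReal.ofReal_mul (by norm_num), Finset.prod_mul_distrib, ENNReal.ofReal_mul
        (by positivity), ENNReal.ofReal_prod_of_nonneg (fun i _ => hβ _), Finset.prod_const,
        ENNReal.ofReal_pow (by positivity), ENNReal.ofReal_natCast]
      simp
    calc _ ≤ (((r + 1 : ℕ) : ℝ≥0∞) ^ (r + 1) * volume (co o (fun i => (e i : E)) '' F)) ^ r *
          (2 * (((r + 1 : ℕ) : ℝ≥0∞) ^ (r + 1) * ∏ i, ENNReal.ofReal (β (T i).1))) :=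
          mul_le_mul' (pow_le_pow_left' h3 r) h4
      _ = (2 * ((r + 1 : ℕ) : ℝ≥0∞) ^ ((r + 1) * (r + 1))) *
          (volume (co o (fun i => (e i : E)) '' F) ^ r * ∏ i, ENNReal.ofReal (β (T i).1)) := by
          ring
      _ ≤ (2 * ((r + 1 : ℕ) : ℝ≥0∞) ^ ((r + 1) * (r + 1))) *
          (((r + 1 : ℕ) : ℝ≥0∞) * Q) ^ (r + 1) := mul_le_mul_right h2 _
      _ = _ := by ring
  · have h1 : (Submodule.span ℝ (Set.range n))ᗮ ≠ ⊥ := by
      rwa [Ne, Submodule.orthogonal_eq_bot_iff]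
    obtain ⟨u, hu, hu0⟩ := Submodule.exists_mem_ne_zero_of_ne_bot h1
    obtain ⟨e, he⟩ := Orthonormal.exists_orthonormalBasis_extension_of_card_eq (𝕜 := ℝ) hcard
      (v := fun _ => ‖u‖⁻¹ • u) (s := {0}) (by
        constructor
        · intro i
          simp [norm_smul, hu0]
        · intro i j hij
          exact absurd (Subsingleton.elim i j) hij)
    have h2 := hcov e 0
    rw [Finset.filter_false_of_mem, Finset.sum_empty] at h2
    · have h3 := null_of_proj 0 _ (le_antisymm h2 zero_le)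
      have h4 := vol_face_le ho e
      rw [h3, mul_zero] at h4
      rw [le_antisymm h4 zero_le, zero_pow (by omega), zero_mul]
      exact zero_le
    · rintro g - ⟨hg1, hg2⟩
      apply hg2
      rw [← hn ⟨g, hg1⟩ (e 0), he 0 rfl, inner_smul_left,
        (Submodule.mem_orthogonal' _ _).mp hu _ (Submodule.subset_span ⟨_, rfl⟩), mul_zero]

noncomputable def cont (j : ℕ) (P : Set E) : ℝ≥0∞ :=
  ∑' F : {F : Set E // IsExposed ℝ P F ∧ F.Nonempty ∧ finrank ℝ (affineSpan ℝ F).direction = j},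
    μH[(j : ℝ)] (F : Set E)

instance finite_faces (S : Finset E) (j : ℕ) : Finite {F : Set E //
    IsExposed ℝ (convexHull ℝ (S : Set E)) F ∧ F.Nonempty ∧
      finrank ℝ (affineSpan ℝ F).direction = j} :=
  ((faces_finite S).subset fun _ h => ⟨h.1, h.2.1⟩).to_subtype

lemma cont_lt_top (S : Finset E) : cont (r + 1) (convexHull ℝ (S : Set E)) < ⊤ := by
  classical
  letI := Fintype.ofFinite {F : Set E //
    IsExposed ℝ (convexHull ℝ (S : Set E)) F ∧ F.Nonempty ∧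
      finrank ℝ (affineSpan ℝ F).direction = r + 1}
  rw [cont, tsum_fintype]
  exact ENNReal.sum_lt_top.mpr fun F _ => face_lt_top S F.2.1 F.2.2.1 F.2.2.2

theorem step (hr : 1 ≤ r) (S : Finset E) :
    cont (r + 1) (convexHull ℝ (S : Set E)) ^ r ≤
      (2 * ((r + 1 : ℕ) : ℝ≥0∞) ^ ((r + 1) * (r + 2))) *
        cont r (convexHull ℝ (S : Set E)) ^ (r + 1) := by
  classical
  set C : ℝ≥0∞ := 2 * ((r + 1 : ℕ) : ℝ≥0∞) ^ ((r + 1) * (r + 2)) with hC
  have hVt := cont_lt_top (r := r) S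
  let J := {F : Set E // IsExposed ℝ (convexHull ℝ (S : Set E)) F ∧ F.Nonempty ∧
      finrank ℝ (affineSpan ℝ F).direction = r + 1}
  let L := {F : Set E // IsExposed ℝ (convexHull ℝ (S : Set E)) F ∧ F.Nonempty ∧
      finrank ℝ (affineSpan ℝ F).direction = r}
  letI : Fintype J := Fintype.ofFinite _
  letI : Fintype L := Fintype.ofFinite _
  have hV : cont (r + 1) (convexHull ℝ (S : Set E)) = ∑ p : J, μH[((r + 1 : ℕ) : ℝ)] p.1 :=
    tsum_fintype _
  have hT : cont r (convexHull ℝ (S : Set E)) = ∑ g : L, μH[(r : ℝ)] g.1 := tsum_fintype _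
  set V := cont (r + 1) (convexHull ℝ (S : Set E)) with hVdef
  set T := cont r (convexHull ℝ (S : Set E)) with hTdef
  by_cases hV0 : V = 0
  · rw [hV0, zero_pow (by omega)]; exact zero_le
  obtain ⟨x, θ, hx, hcol, hθ⟩ := config (P := convexHull ℝ (S : Set E)) r (fun p : J => p.1)
    Subtype.val_injective (fun p => p.2.1) (fun p => p.2.2.1) (fun p => p.2.2.2)
    (fun g : L => g.1) (fun g => g.2.2.1) (fun g => g.2.2.2)
  let v : J → ℝ≥0∞ := fun p => μH[((r + 1 : ℕ) : ℝ)] p.1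
  have hvt : ∀ p, v p ≠ ⊤ := fun p => (face_lt_top S p.2.1 p.2.2.1 p.2.2.2).ne
  have hdt : ∀ p, v p / V ≠ ⊤ := fun p => ENNReal.div_ne_top (hvt p) hV0
  obtain ⟨β, hβ0, hβ1, hβ2⟩ := balance' (s := r + 1) (by omega) x hx θ
    (fun (p : J) (g : L) => g.1 ⊆ p.1) hcol (fun p => (v p / V).toReal)
    (fun p => ENNReal.toReal_nonneg) (by
      rw [← ENNReal.toReal_sum (fun p _ => hdt p)]
      simp only [div_eq_mul_inv, ← Finset.sum_mul]
      rw [← hV, ENNReal.mul_inv_cancel hV0 hVt.ne]; simp)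
  let Q : J → ℝ≥0∞ := fun p => ∑ g ∈ univ.filter (fun g : L => g.1 ⊆ p.1),
    ENNReal.ofReal (β p g) * μH[(r : ℝ)] g.1
  have h1 : ∀ p, v p ^ (r + 1) ≤ (C * V) * Q p ^ (r + 1) := by
    intro p
    have h2 := single hr S p.2.1 p.2.2.1 p.2.2.2 (fun g : L => g.1)
      (fun H h1 h2 h3 => ⟨⟨H, h1, h2, h3⟩, rfl⟩) (fun g => g.2.2.1) (fun g => g.2.2.2) θ
      (hθ p) (β p) (hβ0 p) _ (hβ2 p)
    rw [ENNReal.ofReal_toReal (hdt p)] at h2
    calc v p ^ (r + 1) = (v p ^ r * (v p / V)) * V := by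
          rw [mul_assoc, ENNReal.div_mul_cancel hV0 hVt.ne, pow_succ]
      _ ≤ (C * Q p ^ (r + 1)) * V := mul_le_mul_left h2 _
      _ = _ := by ring
  set c := (C * V) ^ ((1 : ℝ) / ((r + 1 : ℕ) : ℝ)) with hc
  have hcp : c ^ (r + 1) = C * V := by
    rw [hc, one_div, ENNReal.rpow_inv_natCast_pow (by omega)]
  have h3 : ∀ p, v p ≤ c * Q p := by
    intro p
    have := h1 p
    rw [← hcp, ← mul_pow] at this
    exact (ENNReal.pow_le_pow_left_iff (by omega)).mp this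
  have h4 : ∑ p, Q p ≤ T := by
    rw [hT]
    simp only [Q, Finset.sum_filter]
    rw [Finset.sum_comm]
    refine Finset.sum_le_sum fun g _ => ?_
    rw [← Finset.sum_filter, ← Finset.sum_mul, ← ENNReal.ofReal_sum_of_nonneg (fun p _ => hβ0 p g)]
    calc _ ≤ 1 * μH[(r : ℝ)] g.1 := mul_le_mul_left (ENNReal.ofReal_le_one.mpr (hβ1 g)) _
      _ = _ := one_mul _
  have h5 : V ≤ c * T := by
    rw [hV]
    refine (Finset.sum_le_sum fun p _ => h3 p).trans ?_
    rw [← Finset.mul_sum]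
    exact mul_le_mul_right h4 _
  have h6 := pow_le_pow_left' h5 (r + 1)
  rw [mul_pow, hcp, pow_succ, mul_right_comm] at h6
  exact (ENNReal.mul_le_mul_iff_left hV0 hVt.ne).mp h6

theorem step' (hr : 1 ≤ r) : ∃ γ : ℝ≥0, ∀ S : Finset E,
    cont (r + 1) (convexHull ℝ (S : Set E)) ^ ((1 : ℝ) / ((r + 1 : ℕ) : ℝ)) ≤
      γ * cont r (convexHull ℝ (S : Set E)) ^ ((1 : ℝ) / (r : ℝ)) := by
  have hr' : (0 : ℝ) < r := by exact_mod_cast hr
  set C : ℝ≥0∞ := 2 * ((r + 1 : ℕ) : ℝ≥0∞) ^ ((r + 1) * (r + 2)) with hC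
  have hCt : C ≠ ⊤ := ENNReal.mul_ne_top (by simp) (ENNReal.pow_ne_top (by simp))
  have hq : (0 : ℝ) ≤ 1 / (r * (r + 1)) := by positivity
  refine ⟨(C ^ ((1 : ℝ) / (r * (r + 1)))).toNNReal, fun S => ?_⟩
  rw [ENNReal.coe_toNNReal (ENNReal.rpow_ne_top_of_nonneg hq hCt)]
  have h := ENNReal.rpow_le_rpow (step hr S) hq
  rw [← hC, ENNReal.mul_rpow_of_nonneg _ _ hq, ← ENNReal.rpow_natCast, ← ENNReal.rpow_natCast,
    ← ENNReal.rpow_mul, ← ENNReal.rpow_mul] at h
  have e1 : (r : ℝ) * (1 / (r * (r + 1))) = 1 / ((r + 1 : ℕ) : ℝ) := by push_cast; field_simp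
  have e2 : ((r + 1 : ℕ) : ℝ) * (1 / (r * (r + 1))) = 1 / (r : ℝ) := by push_cast; field_simp
  rwa [e1, e2] at h

theorem poly {k s : ℕ} (hk : 1 ≤ k) (hks : k ≤ s) : ∃ γ : ℝ≥0, ∀ S : Finset E,
    cont s (convexHull ℝ (S : Set E)) ^ ((1 : ℝ) / (s : ℝ)) ≤
      γ * cont k (convexHull ℝ (S : Set E)) ^ ((1 : ℝ) / (k : ℝ)) := by
  induction s, hks using Nat.le_induction with
  | base => exact ⟨1, fun S => by simp⟩
  | succ s hs ih =>
    obtain ⟨γ, hγ⟩ := ih
    obtain ⟨γ', hγ'⟩ := step' (E := E) (r := s) (by omega)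
    refine ⟨γ' * γ, fun S => (hγ' S).trans ?_⟩
    rw [ENNReal.coe_mul, mul_assoc]
    exact mul_le_mul_right (hγ S) _

end Pool.Agent.EGK
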